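import Pool.Agent.H84.AB.Basis

/-!
The numerical dimension of products and of their images.
-/

set_option autoImplicit false
set_option linter.overlappingInstances false
set_option linter.unusedSectionVars false

open FF IntermediateField
open Pool.Agent.W602.GT Pool.Agent.W603.LV Pool.Agent.W619.PQ Pool.Agent.W619.TW
  Pool.Agent.W619.Y Q36.SD

namespace H84.AB

section

variable {k L M : Type} [Field k] [CharZero k] [Field L] [Field M]
  [Algebra k L] [Algebra k M]

/-- the numerical dimension does not increase under images -/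
theorem num_image [Algebra L M] [IsScalarTower k L M] [FiniteDimensional L M]
    [Algebra.EssFiniteType k L] {n : ℕ} (hn : Algebra.trdeg k L = n) {a : ℕ}
    (h : NumLe k M n (fun _ => False) a) : NumLe k L n (fun _ => False) a := by
  have h1 := pTRANS.{0, 0} k L M n hn (fun y hy => fin_over y hy) (fun _ => False)
  have hbd : BdUp (k := k) (K := L) (L := M) (fun _ => False) = fun _ => False := by
    funext w
    simp [BdUp]
  rw [hbd] at h1
  exact h1.2.2 a h

theorem num_equiv (e : L ≃ₐ[k] M) [Algebra.EssFiniteType k L] {n : ℕ}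
    (hn : Algebra.trdeg k L = n) {a : ℕ}
    (h : NumLe k M n (fun _ => False) a) : NumLe k L n (fun _ => False) a := by
  let _ : Algebra L M := (e : L →+* M).toAlgebra
  have t1 : IsScalarTower k L M := IsScalarTower.of_algebraMap_eq fun c => (e.commutes c).symm
  have f1 : FiniteDimensional L M := by
    refine Module.Finite.of_surjective (Algebra.linearMap L M) ?_
    intro z
    exact ⟨e.symm z, e.apply_symm_apply z⟩
  exact num_image hn h

end

section

variable {k M : Type} [Field k] [CharZero k] [Field M] [Algebra k M]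
  {r n : ℕ} (F : Fin r → IntermediateField k M) {w : Fin r → ℕ}

theorem trdeg_sup (halg : Algebra.IsAlgebraic ↥(⨆ i, F i) M) (hnM : Algebra.trdeg k M = n)
    (hw : ∀ i, Algebra.trdeg k (F i) = w i) (hsum : ∑ i, w i = n) (S : Finset (Fin r)) :
    Algebra.trdeg k ↥(S.sup F) = (∑ i ∈ S, w i : ℕ) := by
  classical
  have hex : ∀ i, ∃ y : Fin (w i) → F i, IsTranscendenceBasis k y := fun i => by
    obtain ⟨y, -, hy, -⟩ := Pool.Agent.Y172.exists_crd (k := k) (K := F i) (hw i)
    exact ⟨y, hy⟩
  choose y hy using hex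
  let e : Fin n ≃ (Σ i, Fin (w i)) := (finCongr hsum).symm.trans finSigmaFinEquiv.symm
  have hby := basis_family F halg hnM y hy e
  have hle : ∀ i ∈ S, F i ≤ S.sup F := fun i hi => Finset.le_sup (f := F) hi
  let x : {b : Fin n // (e b).1 ∈ S} → ↥(S.sup F) := fun b =>
    ⟨(y (e b.1).1 (e b.1).2 : M), hle _ b.2 (y (e b.1).1 (e b.1).2).2⟩
  have hx1 : AlgebraicIndependent k x := by
    refine AlgebraicIndependent.of_comp (S.sup F).val ?_
    exact hby.1.comp (fun b : {b : Fin n // (e b).1 ∈ S} => b.1) Subtype.val_injective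
  have hx2 : IsTranscendenceBasis k x := by
    refine hx1.isTranscendenceBasis_iff_isAlgebraic.2 ?_
    refine alg_adjoin fun z => ?_
    let A : IntermediateField k ↥(S.sup F) := IntermediateField.adjoin k (Set.range x)
    let A' : IntermediateField k M := A.map (S.sup F).val
    have h1 : S.sup F ≤ (algebraicClosure A' M).restrictScalars k := by
      refine Finset.sup_le fun i hi z hz => ?_
      rw [mem_restrictScalars, mem_algebraicClosure_iff]
      refine alg_of_basis (F i) A' (hy i) (fun l => ?_) ⟨z, hz⟩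
      refine ⟨⟨(y i l : M), hle i hi (y i l).2⟩, ?_, rfl⟩
      refine IntermediateField.subset_adjoin k _
        ⟨⟨e.symm ⟨i, l⟩, by rw [Equiv.apply_symm_apply]; exact hi⟩, ?_⟩
      apply Subtype.ext
      change (y (e (e.symm ⟨i, l⟩)).1 (e (e.symm ⟨i, l⟩)).2 : M) = _
      rw [Equiv.apply_symm_apply]
    have h2 := h1 z.2
    rw [mem_restrictScalars, mem_algebraicClosure_iff] at h2
    -- descend to `S.sup F`
    have h3 : ∀ a : A', ∃ b : A, ((b : ↥(S.sup F)) : M) = a := by
      rintro ⟨_, b, hb, rfl⟩
      exact ⟨⟨b, hb⟩, rfl⟩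
    choose g hg using h3
    let f : A' →+* A :=
      { toFun := g
        map_one' := Subtype.ext (Subtype.ext (by rw [hg]; rfl))
        map_mul' := fun a b => Subtype.ext (Subtype.ext (by
          rw [hg]
          push_cast
          rw [hg, hg]))
        map_zero' := Subtype.ext (Subtype.ext (by rw [hg]; rfl))
        map_add' := fun a b => Subtype.ext (Subtype.ext (by
          rw [hg]
          push_cast
          rw [hg, hg])) }
    obtain ⟨P, hP0, hP⟩ := h2
    refine ⟨P.map f, ?_, ?_⟩
    · rw [Ne, Polynomial.map_eq_zero]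
      exact hP0
    · apply (S.sup F).val.injective
      rw [map_zero, ← hP]
      rw [Polynomial.aeval_def, Polynomial.aeval_def, Polynomial.eval₂_map]
      refine (Polynomial.hom_eval₂ P _ ((S.sup F).val : ↥(S.sup F) →+* M) z).trans ?_
      congr 1
      ext a
      exact hg a
  have h1 := hx2.cardinalMk_eq_trdeg
  rw [← h1]
  have h2 : Fintype.card {b : Fin n // (e b).1 ∈ S} = ∑ i ∈ S, w i := by
    have h3 : Fintype.card {b : Fin n // (e b).1 ∈ S} =
        Fintype.card {x : Σ i, Fin (w i) // x.1 ∈ S} :=
      Fintype.card_congr (e.subtypeEquiv fun b => Iff.rfl)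
    rw [h3, Fintype.card_subtype]
    have h4 : (Finset.univ.filter fun x : Σ i, Fin (w i) => x.1 ∈ S) =
        S.sigma fun i => Finset.univ := by
      ext x
      simp
    rw [h4, Finset.card_sigma]
    simp
  rw [Cardinal.mk_fintype, h2]

end

section

variable {k M : Type} [Field k] [CharZero k] [IsAlgClosed k] [Field M] [Algebra k M]

/-- the formula for two subfields -/
theorem num_two (A F : IntermediateField k M) [Algebra.EssFiniteType k A]
    [Algebra.EssFiniteType k F] {m f a b : ℕ} (hA : Algebra.trdeg k A = m)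
    (hF : Algebra.trdeg k F = f) (hAF : Algebra.trdeg k ↥(A ⊔ F) = (m + f : ℕ))
    (h1 : NumLe k A m (fun _ => False) a) (h2 : NumLe k F f (fun _ => False) b) :
    NumLe k ↥(A ⊔ F) (m + f) (fun _ => False) (a + b) := by
  have hess : Algebra.EssFiniteType k ↥(A ⊔ F) :=
    essFiniteType_iff.2 (fg_sup (essFiniteType_iff.1 inferInstance)
      (essFiniteType_iff.1 inferInstance))
  have hA' : A ≤ A ⊔ F := le_sup_left
  have hF' : F ≤ A ⊔ F := le_sup_right
  let eA := restrictAlgEquiv hA'
  let eF := restrictAlgEquiv hF'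
  have i1 : Algebra.EssFiniteType k ↥(restrict hA') :=
    (Algebra.EssFiniteType.iff_of_algEquiv eA).1 inferInstance
  have i2 : Algebra.EssFiniteType k ↥(restrict hF') :=
    (Algebra.EssFiniteType.iff_of_algEquiv eF).1 inferInstance
  have t1 : Algebra.trdeg k ↥(restrict hA') = m := by rw [← eA.trdeg_eq, hA]
  have t2 : Algebra.trdeg k ↥(restrict hF') = f := by rw [← eF.trdeg_eq, hF]
  have hsup : restrict hA' ⊔ restrict hF' = (⊤ : IntermediateField k ↥(A ⊔ F)) := by
    apply IntermediateField.lift_injective (A ⊔ F)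
    have e1 : lift (restrict hA' ⊔ restrict hF') = A ⊔ F := by
      unfold IntermediateField.lift
      rw [IntermediateField.map_sup]
      congr 1
      · exact lift_restrict hA'
      · exact lift_restrict hF'
    rw [e1, IntermediateField.lift_top]
  exact Pool.Agent.Y173.KU.prod_num hsup hAF t1 t2 (num_equiv eA.symm t1 h1)
    (num_equiv eF.symm t2 h2)

/-- **The numerical dimension of a product.** -/
theorem num_prod {r n : ℕ} (F : Fin r → IntermediateField k M)
    [hF : ∀ i, Algebra.EssFiniteType k (F i)] {w ν : Fin r → ℕ} (hr : 0 < r)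
    (hsup : ⨆ i, F i = ⊤) (hnM : Algebra.trdeg k M = n)
    (hw : ∀ i, Algebra.trdeg k (F i) = w i) (hsum : ∑ i, w i = n)
    (hν : ∀ i, NumLe k (F i) (w i) (fun _ => False) (ν i)) :
    NumLe k M n (fun _ => False) (∑ i, ν i) := by
  classical
  have halg : Algebra.IsAlgebraic ↥(⨆ i, F i) M := Pool.Agent.W619.X.alg_of_sup F hsup
  have key : ∀ S : Finset (Fin r), S.Nonempty → Algebra.EssFiniteType k ↥(S.sup F) ∧
      NumLe k ↥(S.sup F) (∑ i ∈ S, w i) (fun _ => False) (∑ i ∈ S, ν i) := by
    intro S hS
    induction hS using Finset.Nonempty.cons_induction with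
    | singleton a =>
      rw [Finset.sup_singleton, Finset.sum_singleton, Finset.sum_singleton]
      exact ⟨hF a, hν a⟩
    | cons a s ha hs ih =>
      obtain ⟨h1, h2⟩ := ih
      have h3 := trdeg_sup F halg hnM hw hsum s
      have h4 := trdeg_sup F halg hnM hw hsum (Finset.cons a s ha)
      rw [Finset.sup_cons, Finset.sum_cons] at h4
      rw [Finset.sup_cons, Finset.sum_cons, Finset.sum_cons]
      refine ⟨essFiniteType_iff.2 (fg_sup (essFiniteType_iff.1 inferInstance)
        (essFiniteType_iff.1 inferInstance)), ?_⟩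
      exact num_two (F a) (s.sup F) (hw a) h3 h4 (hν a) h2
  have hne : (Finset.univ : Finset (Fin r)).Nonempty := ⟨⟨0, hr⟩, Finset.mem_univ _⟩
  obtain ⟨h1, h2⟩ := key Finset.univ hne
  have htop : (Finset.univ : Finset (Fin r)).sup F = ⊤ := by
    rw [Finset.sup_univ_eq_iSup, hsup]
  rw [hsum] at h2
  rw [htop] at h1 h2
  have e : M ≃ₐ[k] ↥(⊤ : IntermediateField k M) := IntermediateField.topEquiv.symm
  have hess : Algebra.EssFiniteType k M := (Algebra.EssFiniteType.iff_of_algEquiv e.symm).1 h1
  exact num_equiv e hnM h2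

end

end H84.AB
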