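import Pool.Graph.R_pool_sql_team_seeded_3997aac3.Q36.HB.Nu
import Pool.Graph.R_pool_sql_team_seeded_1acbe0a2.Y173.KU.Main

/-!
Transcendence bases of composita, exterior products of canonical forms.
-/

set_option autoImplicit false
set_option linter.overlappingInstances false
set_option linter.unusedSectionVars false

open FF IntermediateField
open Pool.Agent.W602.GT Pool.Agent.W603.LV Pool.Agent.W619.PQ Pool.Agent.W619.TW
  Pool.Agent.W619.Y Q36.SD

namespace H84.AB

section

variable {k M : Type} [Field k] [Field M] [Algebra k M]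

theorem alg_of_basis (F S : IntermediateField k M) {w : ℕ} {y : Fin w → F}
    (hy : IsTranscendenceBasis k y) (hS : ∀ l, (y l : M) ∈ S) (z : F) :
    IsAlgebraic S (z : M) := by
  have h := hy.isAlgebraic_field.isAlgebraic z
  have hle : IntermediateField.adjoin k (Set.range y) ≤ S.comap F.val := by
    rw [IntermediateField.adjoin_le_iff]
    rintro _ ⟨l, rfl⟩
    exact hS l
  let f : IntermediateField.adjoin k (Set.range y) →+* S :=
    ((F.val : F →+* M).comp (algebraMap (IntermediateField.adjoin k (Set.range y)) F)).codRestrict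
      S fun y => hle y.2
  exact h.ringHom_of_comp_eq f (F.val : F →+* M) f.injective (by ext y; rfl)

/-- a transcendence basis of a variety which is generically finite over a product -/
theorem basis_family {r n : ℕ} (F : Fin r → IntermediateField k M)
    (halg : Algebra.IsAlgebraic ↥(⨆ i, F i) M) (hn : Algebra.trdeg k M = n) {w : Fin r → ℕ}
    (y : ∀ i, Fin (w i) → F i) (hy : ∀ i, IsTranscendenceBasis k (y i))
    (e : Fin n ≃ (Σ i, Fin (w i))) :
    IsTranscendenceBasis k (fun b : Fin n => (y (e b).1 (e b).2 : M)) := by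
  have h1 : Algebra.IsAlgebraic
      (Algebra.adjoin k (Set.range fun b : Fin n => (y (e b).1 (e b).2 : M))) M := by
    refine alg_adjoin fun z => ?_
    let S : IntermediateField k M :=
      adjoin k (Set.range fun b : Fin n => (y (e b).1 (e b).2 : M))
    let A : IntermediateField S M := algebraicClosure S M
    have hle : ⨆ i, F i ≤ (algebraicClosure S M).restrictScalars k := by
      refine iSup_le fun i y' hy' => ?_
      rw [mem_restrictScalars, mem_algebraicClosure_iff]
      refine alg_of_basis (F i) S (hy i) (fun l => subset_adjoin k _ ⟨e.symm ⟨i, l⟩, ?_⟩) ⟨y', hy'⟩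
      change (y (e (e.symm ⟨i, l⟩)).1 (e (e.symm ⟨i, l⟩)).2 : M) = _
      rw [Equiv.apply_symm_apply]
    have hA : ∀ z ∈ ⨆ i, F i, z ∈ A := fun z hz => by
      have := hle hz
      rwa [mem_restrictScalars] at this
    let f : ↥(⨆ i, F i) →+* A := ((⨆ i, F i).val : ↥(⨆ i, F i) →+* M).codRestrict A
      fun y => hA _ y.2
    have h2 : IsAlgebraic A z := by
      have h3 := halg.isAlgebraic z
      refine h3.ringHom_of_comp_eq f (RingHom.id M) f.injective (by ext y; rfl)
    have h4 : Algebra.IsAlgebraic S A := algebraicClosure.isAlgebraic S M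
    exact IsAlgebraic.restrictScalars S h2
  refine Algebra.IsAlgebraic.isTranscendenceBasis_of_lift_le_trdeg_of_finite k _ ?_
  rw [hn]
  simp

end

/-- the determinant of a block diagonal matrix -/
theorem det_blocks {R : Type} [CommRing R] {r : ℕ} {w : Fin r → ℕ}
    (N : ∀ i, Matrix (Fin (w i)) (Fin (w i)) R) :
    (Matrix.blockDiagonal' N).det = ∏ i, (N i).det := by
  classical
  rw [(Matrix.blockTriangular_blockDiagonal' N).det_fintype]
  refine Finset.prod_congr rfl fun i _ => ?_
  rw [← Matrix.det_submatrix_equiv_self (Equiv.sigmaSubtype i).symm]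
  congr 1
  ext a b
  simp [Matrix.toSquareBlock, Matrix.toSquareBlockProp, Equiv.sigmaSubtype,
    Matrix.blockDiagonal'_apply]

section

variable {k M : Type} [Field k] [CharZero k] [Field M] [Algebra k M]
  {r n : ℕ} (F : Fin r → IntermediateField k M) {w : Fin r → ℕ}

/-- the exterior product of canonical forms, in coordinates -/
noncomputable def wedge (y : ∀ i, Fin (w i) → F i) (e : Fin n ≃ (Σ i, Fin (w i)))
    (a : ∀ i, F i) (D : Fin n → Derivation k M M) : M :=
  (∏ i, (a i : M)) * (Matrix.of fun s b => D s (y (e b).1 (e b).2 : M)).det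

theorem wedge_pluri (y : ∀ i, Fin (w i) → F i) (e : Fin n ≃ (Σ i, Fin (w i))) (a : ∀ i, F i) :
    IsPluri 1 (wedge F y e a) := by
  intro A D
  unfold wedge
  have e1 : (Matrix.of fun s b => (∑ j, A s j • D j) (y (e b).1 (e b).2 : M)) =
      A * Matrix.of fun s b => D s (y (e b).1 (e b).2 : M) := by
    ext s b
    rw [Matrix.of_apply, Matrix.mul_apply, Pool.Agent.Y172.sum_smul_apply]
    rfl
  rw [e1, Matrix.det_mul, pow_one]
  ring

/-- **The exterior product of regular canonical forms is regular.** -/
theorem wedge_reg [∀ i, Algebra.EssFiniteType k (F i)] (hn : Algebra.trdeg k M = n)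
    (hw : ∀ i, Algebra.trdeg k (F i) = w i) {y : ∀ i, Fin (w i) → F i}
    {E : ∀ i, Fin (w i) → Derivation k (F i) (F i)} (hy : ∀ i, IsTranscendenceBasis k (y i))
    (hE : ∀ i a b, E i a (y i b) = if a = b then 1 else 0)
    (e : Fin n ≃ (Σ i, Fin (w i)))
    {ω : ∀ i, (Fin (w i) → Derivation k (F i) (F i)) → F i} (hω : ∀ i, IsPluri 1 (ω i))
    (hreg : ∀ i, ∀ P : Place k (F i), Divisorial (w i) P → RegAt P (ω i))
    (P : Place k M) (hP : Divisorial n P) :
    RegAt P (wedge F y e fun i => ω i (E i)) := by
  classical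
  intro D hD
  have h := fun i => pYLOC.{0, 0} k M (F i) (w i) n 1 (hw i) hn (fun y hy => fin_over y hy)
    (ω i) (hω i) (hreg i) (y i) (E i) (hy i) (hE i) P hP
  choose Z z hz hyz hge using h
  have e1 : (Matrix.of fun s b => D s (y (e b).1 (e b).2 : M) : Matrix (Fin n) (Fin n) M) =
      (Matrix.of fun s b => D s (z (e b).1 (e b).2)) *
        (Matrix.blockDiagonal' fun i => (Z i).transpose).submatrix e e := by
    ext s b
    rw [Matrix.of_apply, Matrix.mul_apply, hyz (e b).1 (D s) (e b).2]
    rw [← Equiv.sum_comp e.symm]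
    simp only [Matrix.of_apply, Matrix.submatrix_apply, Equiv.apply_symm_apply]
    rw [← Finset.univ_sigma_univ, Finset.sum_sigma, Finset.sum_eq_single (e b).1]
    · refine Finset.sum_congr rfl fun c _ => ?_
      rw [Matrix.blockDiagonal'_apply]
      simp only [dif_pos]
      have h2 : ∀ x : (Σ i, Fin (w i)), D s (z (e (e.symm x)).1 (e (e.symm x)).2) =
          D s (z x.1 x.2) := fun x =>
        congrArg (fun x : (Σ i, Fin (w i)) => D s (z x.1 x.2)) (e.apply_symm_apply x)
      rw [h2, Matrix.transpose_apply, mul_comm]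
      rfl
    · intro i _ hi
      refine Finset.sum_eq_zero fun c _ => ?_
      rw [Matrix.blockDiagonal'_apply, dif_neg hi, mul_zero]
    · intro h
      exact absurd (Finset.mem_univ _) h
  change P.Reg ((∏ i, ((ω i (E i) : F i) : M)) *
    (Matrix.of fun s b => D s (y (e b).1 (e b).2 : M)).det)
  rw [e1, Matrix.det_mul, Matrix.det_submatrix_equiv_self, det_blocks]
  have e2 : (∏ i, ((ω i (E i) : F i) : M)) * ((Matrix.of fun s b => D s (z (e b).1 (e b).2) :
      Matrix (Fin n) (Fin n) M).det * ∏ i, (Z i).transpose.det) =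
      (Matrix.of fun s b => D s (z (e b).1 (e b).2) : Matrix (Fin n) (Fin n) M).det *
        ∏ i, (((ω i (E i) : F i) : M) * (Z i).det ^ 1) := by
    rw [Finset.prod_mul_distrib]
    simp only [Matrix.det_transpose, pow_one]
    ring
  rw [e2]
  refine P.reg_mul ?_ ?_
  · have h9 : Ge P 0 (Matrix.of fun s b => D s (z (e b).1 (e b).2) :
        Matrix (Fin n) (Fin n) M).det :=
      ge_det P _ _ (fun _ _ => 0) (fun a b => hD a _ (hz _ _)) fun σ => by simp
    exact h9
  · have : ∀ s : Finset (Fin r), P.Reg (∏ i ∈ s, (((ω i (E i) : F i) : M) * (Z i).det ^ 1)) := by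
      intro s
      induction s using Finset.induction_on with
      | empty => simpa using P.reg_one
      | insert a s ha ih =>
        rw [Finset.prod_insert ha]
        exact P.reg_mul (hge a) ih
    exact this _

end

end H84.AB
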