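import Pool.Graph.R_seed8.W602.GT.Defs

/-!
Definitions: regular canonical forms and separation of first order jets.
-/

set_option autoImplicit false
set_option linter.overlappingInstances false

open FF Pool.Agent.W602.GT

namespace H84.AB

/-- `ω` is a regular canonical form on the projective manifolds `W` of dimension `w` with the
function field `F`: it is multiplied by `det A` under a linear substitution `A` of the `w` rational
vector fields, and it is regular along all prime divisors over `W`. -/
def CanForm (k F : Type) [Field k] [Field F] [Algebra k F] (w : ℕ)
    (ω : (Fin w → Derivation k F F) → F) : Prop :=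
  IsPluri 1 ω ∧ ∀ P : Place k F, Divisorial w P → RegAt P ω

/-- **First order `p`-very ampleness at generic points.** The canonical forms of the manifolds `W`
with the function field `F` (of dimension `w`) separate generic points and tangent vectors of total
length at most `p + 1`: for some coordinates `y` of `W` with the dual vector fields `E`, and for
every finite set `Φ` of generic points of `W` with values in an extension field `Ω` of `k` (that is,
embeddings `φ` of `F` in `Ω`), the functionals `ω ↦ φ (ω E)` (values) and
`ω ↦ ∑ v a * φ (E a (ω E))` (derivatives in a direction `v`), at most one direction for each point,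
satisfy no linear relation if the number of the points plus the number of the points with a
nonzero direction is at most `p + 1`.

For a curve of gonality `γ` this is true for `p = γ - 2`; it is true if the canonical bundle of a
projective manifold `W` is `p`-very ample, for instance for smooth hypersurfaces of degree
`p + w + 2`. For `p = 0` it says that the geometric genus is positive. -/
def JetAmple (k F : Type) [Field k] [Field F] [Algebra k F] (w p : ℕ) : Prop :=
  ∃ (y : Fin w → F) (E : Fin w → Derivation k F F), IsTranscendenceBasis k y ∧
    (∀ i j, E i (y j) = if i = j then 1 else 0) ∧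
    ∀ (Ω : Type) [Field Ω] [Algebra k Ω] (Φ : Finset (F →ₐ[k] Ω)) (c : (F →ₐ[k] Ω) → Ω)
      (v : (F →ₐ[k] Ω) → Fin w → Ω) (S : Finset (F →ₐ[k] Ω)), S ⊆ Φ → (∀ φ ∈ Φ, φ ∉ S → v φ = 0) →
      Φ.card + S.card ≤ p + 1 →
      (∀ ω : (Fin w → Derivation k F F) → F, CanForm k F w ω →
        ∑ φ ∈ Φ, (c φ * φ (ω E) + ∑ a, v φ a * φ (E a (ω E))) = 0) →
      ∀ φ ∈ Φ, c φ = 0 ∧ v φ = 0

end H84.AB
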