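import Pool.Agent.H84.AB.Basis
import Pool.Agent.H84.AB.Defs

/-!
A criterion for the separation of jets by canonical forms.
-/

set_option autoImplicit false
set_option linter.overlappingInstances false
set_option linter.unusedSectionVars false

open FF MvPolynomial
open Pool.Agent.W602.GT

namespace H84.AB

section

variable {k F : Type} [Field k] [Field F] [Algebra k F] {N : ℕ}

/-- the chain rule -/
theorem chain (D : Derivation k F F) (x : Fin N → F) (A : MvPolynomial (Fin N) k) :
    D (aeval x A) = ∑ j, aeval x (pderiv j A) * D (x j) := by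
  classical
  induction A using MvPolynomial.induction_on with
  | C a => simp
  | add p q hp hq =>
    simp only [map_add, hp, hq, add_mul, Finset.sum_add_distrib]
  | mul_X p i hp =>
    rw [map_mul, aeval_X, D.leibniz, hp]
    have h1 : ∀ j, aeval x (pderiv j (p * X i)) * D (x j) =
        aeval x p * (if i = j then D (x j) else 0) + x i * (aeval x (pderiv j p) * D (x j)) := by
      intro j
      rw [(pderiv j).leibniz, map_add, smul_eq_mul, smul_eq_mul, map_mul, map_mul, aeval_X]
      by_cases h : i = j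
      · subst h
        rw [pderiv_X_self, map_one, if_pos rfl]
        ring
      · rw [pderiv_X_of_ne h, if_neg h, map_zero]
        ring
    rw [Finset.sum_congr rfl fun j _ => h1 j, Finset.sum_add_distrib, ← Finset.mul_sum,
      ← Finset.mul_sum, Finset.sum_ite_eq Finset.univ i, if_pos (Finset.mem_univ i),
      smul_eq_mul, smul_eq_mul]

variable {Ω : Type} [Field Ω] [Algebra k Ω] {w : ℕ}

/-- an embedded derivation which kills generators -/
theorem der_gen (φ : F →ₐ[k] Ω) (E : Fin w → Derivation k F F) (v : Fin w → Ω) {x : Fin N → F}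
    (hx : IntermediateField.adjoin k (Set.range x) = ⊤)
    (h : ∀ j, ∑ a, v a * φ (E a (x j)) = 0) (z : F) : ∑ a, v a * φ (E a z) = 0 := by
  let δ : F → Ω := fun z => ∑ a, v a * φ (E a z)
  have hadd : ∀ a b, δ (a + b) = δ a + δ b := by
    intro a b
    simp only [δ, map_add, mul_add, Finset.sum_add_distrib]
  have hmul : ∀ a b, δ (a * b) = φ a * δ b + φ b * δ a := by
    intro a b
    simp only [δ]
    rw [Finset.mul_sum, Finset.mul_sum, ← Finset.sum_add_distrib]
    refine Finset.sum_congr rfl fun c _ => ?_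
    rw [(E c).leibniz, map_add, smul_eq_mul, smul_eq_mul, map_mul, map_mul]
    ring
  have hone : δ 1 = 0 := by
    simp [δ]
  have hz : z ∈ IntermediateField.adjoin k (Set.range x) := by rw [hx]; trivial
  change δ z = 0
  induction hz using IntermediateField.adjoin_induction with
  | mem z hz =>
    obtain ⟨j, rfl⟩ := hz
    exact h j
  | algebraMap c => simp [δ]
  | add a b _ _ ha hb => rw [hadd, ha, hb, add_zero]
  | inv a _ ha =>
    by_cases h0 : a = 0
    · rw [h0, inv_zero]
      simp [δ]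
    · have h1 := hmul a a⁻¹
      rw [mul_inv_cancel₀ h0, hone, ha, mul_zero, add_zero] at h1
      exact (mul_eq_zero.1 h1.symm).resolve_left fun h => h0 ((map_eq_zero φ).1 h)
  | mul a b _ _ ha hb => rw [hmul, ha, hb, mul_zero, mul_zero, add_zero]

/-- **Polynomials separate jets.** -/
theorem poly_jets {ι : Type} [DecidableEq ι] (Φ S : Finset ι) (P : ι → Fin N → Ω)
    (hP : Set.InjOn P Φ) (C' : ι → Ω) (u : ι → Fin N → Ω) (m : ℕ) (hS : S ⊆ Φ)
    (hu : ∀ φ ∈ Φ, φ ∉ S → u φ = 0) (hcard : Φ.card + S.card ≤ m + 1)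
    (hT : ∀ A : MvPolynomial (Fin N) Ω, A.totalDegree ≤ m →
      ∑ φ ∈ Φ, (C' φ * eval (P φ) A + ∑ j, u φ j * eval (P φ) (pderiv j A)) = 0)
    (φ1 : ι) (h1 : φ1 ∈ Φ) : C' φ1 = 0 ∧ u φ1 = 0 := by
  classical
  have hex : ∀ φ : ι, ∃ ℓ : MvPolynomial (Fin N) Ω, φ ∈ Φ.erase φ1 →
      ℓ.totalDegree ≤ 1 ∧ eval (P φ) ℓ = 0 ∧ eval (P φ1) ℓ ≠ 0 := by
    intro φ
    by_cases hφ : φ ∈ Φ.erase φ1
    · have hne : P φ ≠ P φ1 := fun h =>
        Finset.ne_of_mem_erase hφ (hP (Finset.mem_of_mem_erase hφ) h1 h)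
      obtain ⟨j, hj⟩ := Function.ne_iff.1 hne
      refine ⟨X j - C (P φ j), fun _ => ⟨?_, by simp, ?_⟩⟩
      · refine (totalDegree_sub _ _).trans ?_
        rw [totalDegree_X, totalDegree_C]
        simp
      · rw [map_sub, eval_X, eval_C, sub_ne_zero]
        exact hj.symm
    · exact ⟨0, fun h => absurd h hφ⟩
  choose ℓ hℓ using hex
  let A1 : MvPolynomial (Fin N) Ω := ∏ φ ∈ Φ.erase φ1, ℓ φ ^ (if φ ∈ S then 2 else 1)
  have hdeg : A1.totalDegree ≤ ∑ φ ∈ Φ.erase φ1, (if φ ∈ S then 2 else 1) := by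
    refine (totalDegree_finsetProd _ _).trans (Finset.sum_le_sum fun φ hφ => ?_)
    refine (totalDegree_pow _ _).trans ?_
    calc _ ≤ (if φ ∈ S then 2 else 1) * 1 := Nat.mul_le_mul_left _ (hℓ φ hφ).1
      _ = _ := mul_one _
  have hsum : ∑ φ ∈ Φ.erase φ1, (if φ ∈ S then 2 else 1) + (if φ1 ∈ S then 2 else 1) =
      Φ.card + S.card := by
    rw [Finset.sum_erase_add Φ _ h1]
    have h2 : ∀ φ ∈ Φ, (if φ ∈ S then 2 else 1) = 1 + if φ ∈ S then 1 else 0 := by
      intro φ _
      split_ifs <;> rfl
    rw [Finset.sum_congr rfl h2, Finset.sum_add_distrib, Finset.sum_const, smul_eq_mul, mul_one,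
      ← Finset.sum_filter, Finset.sum_const, smul_eq_mul, mul_one]
    congr 2
    ext φ
    rw [Finset.mem_filter]
    exact ⟨fun h => h.2, fun h => ⟨hS h, h⟩⟩
  have hA1 : eval (P φ1) A1 ≠ 0 := by
    simp only [A1]
    rw [map_prod]
    refine Finset.prod_ne_zero_iff.2 fun φ hφ => ?_
    rw [map_pow]
    exact pow_ne_zero _ (hℓ φ hφ).2.2
  -- the other points
  have hother : ∀ lam : MvPolynomial (Fin N) Ω, ∀ φ ∈ Φ, φ ≠ φ1 →
      C' φ * eval (P φ) (A1 * lam) + ∑ j, u φ j * eval (P φ) (pderiv j (A1 * lam)) = 0 := by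
    intro lam φ hφ hne
    have hφ' : φ ∈ Φ.erase φ1 := Finset.mem_erase.2 ⟨hne, hφ⟩
    obtain ⟨-, h3, -⟩ := hℓ φ hφ'
    have h4 : A1 = ℓ φ ^ (if φ ∈ S then 2 else 1) *
        ∏ φ ∈ (Φ.erase φ1).erase φ, ℓ φ ^ (if φ ∈ S then 2 else 1) :=
      (Finset.mul_prod_erase _ (fun φ => ℓ φ ^ (if φ ∈ S then 2 else 1)) hφ').symm
    obtain ⟨R, hR⟩ : ∃ R, R = (∏ φ ∈ (Φ.erase φ1).erase φ, ℓ φ ^ (if φ ∈ S then 2 else 1)) *
      lam := ⟨_, rfl⟩
    have h5 : A1 * lam = ℓ φ ^ (if φ ∈ S then 2 else 1) * R := by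
      rw [h4, hR, mul_assoc]
    rw [h5]
    by_cases hφS : φ ∈ S
    · rw [if_pos hφS, map_mul, map_pow, h3]
      have h6 : ∀ j, eval (P φ) (pderiv j (ℓ φ ^ 2 * R)) = 0 := by
        intro j
        rw [pow_two, (pderiv j).leibniz, (pderiv j).leibniz]
        simp only [smul_eq_mul, map_add, map_mul, h3]
        ring
      simp only [h6]
      simp
    · rw [if_neg hφS, hu φ hφ hφS, pow_one, map_mul, h3]
      simp
  have hTl : ∀ lam : MvPolynomial (Fin N) Ω, (A1 * lam).totalDegree ≤ m →
      C' φ1 * eval (P φ1) (A1 * lam) + ∑ j, u φ1 j * eval (P φ1) (pderiv j (A1 * lam)) = 0 := by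
    intro lam hlam
    have h2 := hT _ hlam
    rw [← Finset.sum_erase_add Φ _ h1, Finset.sum_eq_zero, zero_add] at h2
    · exact h2
    · intro φ hφ
      exact hother lam φ (Finset.mem_of_mem_erase hφ) (Finset.ne_of_mem_erase hφ)
  have hu1 : u φ1 = 0 := by
    by_cases h2 : φ1 ∈ S
    · rw [if_pos h2] at hsum
      funext i
      have h3 := hTl (X i - C (P φ1 i)) (by
        refine (totalDegree_mul _ _).trans ?_
        have h4 : (X i - C (P φ1 i) : MvPolynomial (Fin N) Ω).totalDegree ≤ 1 := by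
          refine (totalDegree_sub _ _).trans ?_
          rw [totalDegree_X, totalDegree_C]
          simp
        omega)
      have h5 : ∀ j, u φ1 j * eval (P φ1) (pderiv j (A1 * (X i - C (P φ1 i)))) =
          if j = i then u φ1 i * eval (P φ1) A1 else 0 := by
        intro j
        rw [(pderiv j).leibniz, smul_eq_mul, smul_eq_mul, map_add, map_mul, map_mul]
        have h7 : eval (P φ1) (X i - C (P φ1 i)) = 0 := by
          rw [map_sub, eval_X, eval_C, sub_self]
        have h8 : pderiv j (X i - C (P φ1 i) : MvPolynomial (Fin N) Ω) = pderiv j (X i) := by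
          rw [map_sub, pderiv_C, sub_zero]
        rw [h7, zero_mul, add_zero, h8]
        by_cases h6 : j = i
        · subst h6
          rw [pderiv_X_self, map_one, mul_one, if_pos rfl]
        · rw [pderiv_X_of_ne (Ne.symm h6), map_zero, mul_zero, mul_zero, if_neg h6]
      rw [Finset.sum_congr rfl fun j _ => h5 j, Finset.sum_ite_eq' Finset.univ i,
        if_pos (Finset.mem_univ i), map_mul, map_sub, eval_X, eval_C, sub_self, mul_zero,
        mul_zero, zero_add] at h3
      exact (mul_eq_zero.1 h3).resolve_right hA1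
    · exact hu φ1 h1 h2
  refine ⟨?_, hu1⟩
  have h2 := hTl 1 (by
    rw [mul_one]
    split_ifs at hsum <;> omega)
  rw [hu1] at h2
  simp only [mul_one, Pi.zero_apply, zero_mul, Finset.sum_const_zero, add_zero] at h2
  exact (mul_eq_zero.1 h2).resolve_right hA1

end

section

variable {k F : Type} [Field k] [CharZero k] [Field F] [Algebra k F] {w N m : ℕ}

/-- **The criterion.** -/
theorem jetAmple_of_poly (hw : Algebra.trdeg k F = w) {x : Fin N → F}
    (hx : IntermediateField.adjoin k (Set.range x) = ⊤)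
    {ω : (Fin w → Derivation k F F) → F} {D : Fin w → Derivation k F F} (hD : ω D ≠ 0)
    (hω : ∀ A : MvPolynomial (Fin N) k, A.totalDegree ≤ m →
      CanForm k F w fun D => aeval x A * ω D) : JetAmple k F w m := by
  classical
  obtain ⟨y, E, hy, hE⟩ := Pool.Agent.Y172.exists_crd (k := k) (K := F) hw
  refine ⟨y, E, hy, hE, fun Ω _ _ Φ c v S hS hvS hcard hrel => ?_⟩
  have hω1 : IsPluri 1 ω := by
    have h1 := (hω 1 (by simp)).1
    simpa using h1
  have hg : ω E ≠ 0 := by
    intro h0
    have h1 := Pool.Agent.Y172.pluri_coord hy hE hω1 D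
    rw [h0, mul_zero] at h1
    exact hD h1
  set g := ω E with hgdef
  let P : (F →ₐ[k] Ω) → Fin N → Ω := fun φ j => φ (x j)
  have hP : Function.Injective P := by
    intro φ ψ h
    apply AlgHom.ext
    intro z
    have hz : z ∈ IntermediateField.adjoin k (Set.range x) := by rw [hx]; trivial
    induction hz using IntermediateField.adjoin_induction with
    | mem z hz =>
      obtain ⟨j, rfl⟩ := hz
      exact congrFun h j
    | algebraMap c => rw [φ.commutes, ψ.commutes]
    | add a b _ _ ha hb => rw [map_add, map_add, ha, hb]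
    | inv a _ ha => rw [map_inv₀, map_inv₀, ha]
    | mul a b _ _ ha hb => rw [map_mul, map_mul, ha, hb]
  let C' : (F →ₐ[k] Ω) → Ω := fun φ => c φ * φ g + ∑ a, v φ a * φ (E a g)
  let u : (F →ₐ[k] Ω) → Fin N → Ω := fun φ j => φ g * ∑ a, v φ a * φ (E a (x j))
  have heval : ∀ (φ : F →ₐ[k] Ω) (A : MvPolynomial (Fin N) k),
      φ (aeval x A) = eval (P φ) (map (algebraMap k Ω) A) := by
    intro φ A
    rw [eval_map, ← aeval_def]
    exact (comp_aeval_apply (φ := φ) x A)
  have hT : ∀ A : MvPolynomial (Fin N) Ω, A.totalDegree ≤ m →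
      ∑ φ ∈ Φ, (C' φ * eval (P φ) A + ∑ j, u φ j * eval (P φ) (pderiv j A)) = 0 := by
    -- the polynomials over `k`
    have h0 : ∀ A : MvPolynomial (Fin N) k, A.totalDegree ≤ m →
        ∑ φ ∈ Φ, (C' φ * eval (P φ) (map (algebraMap k Ω) A) +
          ∑ j, u φ j * eval (P φ) (pderiv j (map (algebraMap k Ω) A))) = 0 := by
      intro A hA
      have h1 := hrel _ (hω A hA)
      rw [← h1]
      refine Finset.sum_congr rfl fun φ _ => ?_
      have h2 : ∀ a, φ (E a (aeval x A * g)) = φ (aeval x A) * φ (E a g) +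
          φ g * ∑ j, φ (aeval x (pderiv j A)) * φ (E a (x j)) := by
        intro a
        rw [(E a).leibniz, smul_eq_mul, smul_eq_mul, map_add, map_mul, map_mul, chain, map_sum]
        congr 2
        exact Finset.sum_congr rfl fun j _ => map_mul _ _ _
      simp only [← hgdef, h2, map_mul]
      have h3 : ∀ j, eval (P φ) (pderiv j (map (algebraMap k Ω) A)) =
          φ (aeval x (pderiv j A)) := by
        intro j
        rw [heval, pderiv_map]
      simp only [h3, ← heval, C', u]
      have h4 : ∑ a, v φ a * (φ (aeval x A) * φ (E a g) +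
          φ g * ∑ j, φ (aeval x (pderiv j A)) * φ (E a (x j))) =
          φ (aeval x A) * ∑ a, v φ a * φ (E a g) +
          ∑ j, φ g * (∑ a, v φ a * φ (E a (x j))) * φ (aeval x (pderiv j A)) := by
        simp only [mul_add, Finset.sum_add_distrib, Finset.mul_sum, Finset.sum_mul]
        congr 1
        · refine Finset.sum_congr rfl fun a _ => ?_
          ring
        · rw [Finset.sum_comm]
          refine Finset.sum_congr rfl fun j _ => Finset.sum_congr rfl fun a _ => ?_
          ring
      rw [h4]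
      ring
    intro A hA
    have h1 : ∀ s ∈ A.support, ∑ φ ∈ Φ, (C' φ * eval (P φ) (monomial s (A.coeff s)) +
        ∑ j, u φ j * eval (P φ) (pderiv j (monomial s (A.coeff s)))) = 0 := by
      intro s hs
      have h2 := h0 (monomial s 1) (by
        rw [totalDegree_monomial _ one_ne_zero]
        exact (le_totalDegree hs).trans hA)
      have h3 : (monomial s (A.coeff s) : MvPolynomial (Fin N) Ω) =
          C (A.coeff s) * map (algebraMap k Ω) (monomial s 1) := by
        rw [map_monomial, map_one, C_mul_monomial, mul_one]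
      rw [h3]
      have h4 : ∀ φ, (C' φ * eval (P φ) (C (A.coeff s) * map (algebraMap k Ω) (monomial s 1)) +
          ∑ j, u φ j * eval (P φ) (pderiv j (C (A.coeff s) *
            map (algebraMap k Ω) (monomial s 1)))) =
          A.coeff s * (C' φ * eval (P φ) (map (algebraMap k Ω) (monomial s 1)) +
          ∑ j, u φ j * eval (P φ) (pderiv j (map (algebraMap k Ω) (monomial s 1)))) := by
        intro φ
        rw [mul_add, Finset.mul_sum]
        congr 1
        · rw [map_mul, eval_C]
          ring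
        · refine Finset.sum_congr rfl fun j _ => ?_
          rw [pderiv_C_mul, map_mul, eval_C]
          ring
      rw [Finset.sum_congr rfl fun φ _ => h4 φ, ← Finset.mul_sum, h2, mul_zero]
    have h2 : ∑ φ ∈ Φ, (C' φ * eval (P φ) A + ∑ j, u φ j * eval (P φ) (pderiv j A)) =
        ∑ s ∈ A.support, ∑ φ ∈ Φ, (C' φ * eval (P φ) (monomial s (A.coeff s)) +
        ∑ j, u φ j * eval (P φ) (pderiv j (monomial s (A.coeff s)))) := by
      rw [Finset.sum_comm]
      refine Finset.sum_congr rfl fun φ _ => ?_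
      rw [Finset.sum_add_distrib, ← Finset.mul_sum, ← map_sum, ← A.as_sum]
      congr 1
      rw [Finset.sum_comm]
      refine Finset.sum_congr rfl fun j _ => ?_
      rw [← Finset.mul_sum, ← map_sum, ← map_sum, ← A.as_sum]
    rw [h2]
    exact Finset.sum_eq_zero h1
  intro φ hφ
  obtain ⟨h1, h2⟩ := poly_jets Φ S P hP.injOn C' u m hS (fun φ hφ hφS => by
    funext j
    simp only [u, hvS φ hφ hφS]
    simp) hcard hT φ hφ
  have hφg : φ g ≠ 0 := fun h => hg ((map_eq_zero φ).1 h)
  have h3 := der_gen φ E (v φ) hx (fun j =>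
    (mul_eq_zero.1 (congrFun h2 j)).resolve_left hφg)
  have h4 : v φ = 0 := by
    funext b
    have h5 := h3 (y b)
    rw [Finset.sum_eq_single b] at h5
    · rw [hE, if_pos rfl, map_one, mul_one] at h5
      exact h5
    · intro a _ hab
      rw [hE, if_neg hab, map_zero, mul_zero]
    · intro h
      exact absurd (Finset.mem_univ b) h
  refine ⟨?_, h4⟩
  simp only [C', h4, Pi.zero_apply, zero_mul, Finset.sum_const_zero, add_zero] at h1
  exact (mul_eq_zero.1 h1).resolve_right hφg

end

end H84.AB
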