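import Pool.Agent.H84.AB.Basis
import Pool.Agent.H84.AB.Defs
import Pool.Graph.R_pool_sql_team_seeded_3997aac3.Q36.HB.Id

/-!
Curves of gonality `γ` separate jets of length `γ - 1`.
-/

set_option autoImplicit false
set_option linter.overlappingInstances false
set_option linter.unusedSectionVars false

open FF IntermediateField
open Pool.Agent.W602.GT Pool.Agent.W603.LV Q36.SD

namespace H84.AB

section

variable {k F : Type} [Field k] [CharZero k] [IsAlgClosed k] [Field F] [Algebra k F] [IsFF k F]

/-- a regular differential is a canonical form -/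
theorem canForm_of_regDiff {D0 : Derivation k F F} (hD0 : D0 ≠ 0) {t f : F}
    (ht : Transcendental k t) (hf : RegDiff D0 f) :
    CanForm k F 1 fun D => D 0 t / D0 t * f := by
  refine ⟨fun A D => ?_, fun P _ D hD => ?_⟩
  · rw [Matrix.det_fin_one, pow_one]
    have h1 : (∑ j, A 0 j • D j) t = A 0 0 * D 0 t := by
      rw [Fin.sum_univ_one]
      rfl
    change (∑ j, A 0 j • D j) t / D0 t * f = A 0 0 * (D 0 t / D0 t * f)
    rw [h1]
    ring
  · obtain ⟨c, hc⟩ := der_smul (D' := D 0) hD0
    have h0 : D0 t ≠ 0 := der_ne_zero hD0 ht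
    have h1 : D 0 t / D0 t = c := by
      rw [hc, Derivation.coe_smul, Pi.smul_apply, smul_eq_mul, mul_div_cancel_right₀ _ h0]
    change P.Reg (D 0 t / D0 t * f)
    rw [h1]
    by_cases hc0 : c = 0
    · left
      rw [hc0, zero_mul]
    rcases hf P with h2 | h2
    · left
      rw [h2, mul_zero]
    · by_cases hf0 : f = 0
      · left
        rw [hf0, mul_zero]
      right
      rw [P.ord_mul hc0 hf0]
      have h3 : 0 ≤ vo P (D 0) := by
        have h4 := hD 0 (unif P) (Or.inr (by rw [ord_unif]; norm_num))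
        rcases h4 with h4 | h4
        · exfalso
          rw [hc, Derivation.coe_smul, Pi.smul_apply, smul_eq_mul] at h4
          rcases mul_eq_zero.1 h4 with h5 | h5
          · exact hc0 h5
          · exact der_pi_ne_zero hD0 P (ord_unif P) h5
        · exact h4
      rw [hc, vo_smul P hD0 hc0] at h3
      omega

/-- **Curves.** -/
theorem jetAmple_curve {γ : ℕ} (hγ2 : 2 ≤ γ)
    (hγ : ∀ b : F, Transcendental k b → γ ≤ Module.finrank k⟮b⟯ F) :
    JetAmple k F 1 (γ - 2) := by
  classical
  have hess : Algebra.EssFiniteType k F := IsFF.ess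
  obtain ⟨y, E, hy, hE⟩ := Pool.Agent.Y172.exists_crd (k := k) (K := F) (n := 1)
    (by rw [IsFF.trdeg]; simp)
  refine ⟨y, E, hy, hE, fun Ω _ _ Φ c v S hS hvS hcard hrel => ?_⟩
  have ht : Transcendental k (y 0) := hy.1.transcendental 0
  have hE00 : E 0 (y 0) = 1 := by rw [hE, if_pos rfl]
  have hD0 : E 0 ≠ 0 := by
    intro h
    rw [h] at hE00
    exact zero_ne_one hE00
  have key := Q36.HB.indep_mu (k := k) (F := F) (Ω := Ω) (ι := Φ) hD0 (fun φ => φ.1)
    Subtype.val_injective (fun φ => if φ.1 ∈ S then 2 else 1)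
    (fun φ => by
      by_cases h : φ.1 ∈ S
      · right; rw [if_pos h]
      · left; rw [if_neg h])
    (fun b hb => ?_) (fun φ => c φ.1) (fun φ => v φ.1 0) (fun φ h => ?_) (fun f hf => ?_)
  · intro φ hφ
    obtain ⟨h1, h2⟩ := key ⟨φ, hφ⟩
    refine ⟨h1, ?_⟩
    funext a
    rw [Subsingleton.elim a 0]
    exact h2
  · refine lt_of_lt_of_le ?_ (hγ b hb)
    have h1 : ∑ φ : Φ, (if φ.1 ∈ S then 2 else 1) = Φ.card + S.card := by
      rw [Finset.sum_coe_sort Φ (fun φ => if φ ∈ S then 2 else 1)]
      have h2 : ∀ φ ∈ Φ, (if φ ∈ S then 2 else 1) = 1 + if φ ∈ S then 1 else 0 := by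
        intro φ _
        split_ifs <;> rfl
      rw [Finset.sum_congr rfl h2, Finset.sum_add_distrib, Finset.sum_const, smul_eq_mul, mul_one,
        ← Finset.sum_filter, Finset.sum_const, smul_eq_mul, mul_one]
      congr 2
      ext φ
      rw [Finset.mem_filter]
      exact ⟨fun h => h.2, fun h => ⟨hS h, h⟩⟩
    rw [h1]
    omega
  · have h1 : φ.1 ∉ S := by
      intro h1
      rw [if_pos h1] at h
      omega
    rw [hvS φ.1 φ.2 h1]
    rfl
  · have h1 := hrel _ (canForm_of_regDiff hD0 ht hf)
    rw [← Finset.sum_coe_sort] at h1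
    rw [← h1]
    refine Finset.sum_congr rfl fun φ _ => ?_
    simp only [Fin.sum_univ_one, Fin.isValue, hE00, div_one, one_mul]

end

end H84.AB
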