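import Pool.Agent.H84.AB.Jets

/-!
Elimination.
-/

set_option autoImplicit false
set_option linter.overlappingInstances false
set_option linter.unusedSectionVars false

namespace H84.AB

section

variable {Ω : Type} [Field Ω] {r : ℕ} {C : Fin r → Type}

/-- the value of a functional on a formal combination -/
noncomputable def lin {X : Type} (g : X →₀ Ω) (V : X → Ω) : Ω := ∑ x ∈ g.support, g x * V x

theorem lin_eq {X : Type} (g : X →₀ Ω) (V : X → Ω) :
    lin g V = Finsupp.linearCombination Ω V g := by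
  rw [Finsupp.linearCombination_apply, Finsupp.sum]
  rfl

/-- the multilinear extension of a relation -/
theorem extend {Λ : Type} [Fintype Λ] (c : Λ → Ω) (V W : ∀ i, Λ → C i → Ω)
    (h : ∀ f : ∀ i, C i, ∑ σ, (c σ * ∏ j, V j σ (f j) +
      ∑ i, ∏ j, (if j = i then W j σ (f j) else V j σ (f j))) = 0) (g : ∀ i, C i →₀ Ω) :
    ∑ σ, (c σ * ∏ j, lin (g j) (V j σ) +
      ∑ i, ∏ j, (if j = i then lin (g j) (W j σ) else lin (g j) (V j σ))) = 0 := by
  classical
  have e1 : ∀ σ, c σ * ∏ j, lin (g j) (V j σ) =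
      ∑ q ∈ Fintype.piFinset fun i => (g i).support,
        (∏ i, g i (q i)) * (c σ * ∏ j, V j σ (q j)) := by
    intro σ
    unfold lin
    rw [Finset.prod_univ_sum, Finset.mul_sum]
    refine Finset.sum_congr rfl fun q _ => ?_
    rw [Finset.prod_mul_distrib]
    ring
  have e2 : ∀ σ, ∑ i, ∏ j, (if j = i then lin (g j) (W j σ) else lin (g j) (V j σ)) =
      ∑ q ∈ Fintype.piFinset fun i => (g i).support,
        (∏ i, g i (q i)) * ∑ i, ∏ j, (if j = i then W j σ (q j) else V j σ (q j)) := by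
    intro σ
    have e3 : ∀ i, ∏ j, (if j = i then lin (g j) (W j σ) else lin (g j) (V j σ)) =
        ∑ q ∈ Fintype.piFinset fun i => (g i).support,
          (∏ i, g i (q i)) * ∏ j, (if j = i then W j σ (q j) else V j σ (q j)) := by
      intro i
      have e4 : ∀ j, (if j = i then lin (g j) (W j σ) else lin (g j) (V j σ)) =
          ∑ x ∈ (g j).support, g j x * (if j = i then W j σ x else V j σ x) := by
        intro j
        unfold lin
        split_ifs <;> rfl
      rw [Finset.prod_congr rfl fun j _ => e4 j, Finset.prod_univ_sum]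
      refine Finset.sum_congr rfl fun q _ => ?_
      rw [Finset.prod_mul_distrib]
    rw [Finset.sum_congr rfl fun i _ => e3 i, Finset.sum_comm]
    refine Finset.sum_congr rfl fun q _ => ?_
    rw [Finset.mul_sum]
  have e4 : ∀ σ, (c σ * ∏ j, lin (g j) (V j σ) +
      ∑ i, ∏ j, (if j = i then lin (g j) (W j σ) else lin (g j) (V j σ))) =
      ∑ q ∈ Fintype.piFinset fun i => (g i).support,
        (∏ i, g i (q i)) * (c σ * ∏ j, V j σ (q j) + ∑ i,
          ∏ j, (if j = i then W j σ (q j) else V j σ (q j))) := by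
    intro σ
    rw [e1, e2, ← Finset.sum_add_distrib]
    refine Finset.sum_congr rfl fun q _ => ?_
    ring
  rw [Finset.sum_congr rfl fun σ _ => e4 σ, Finset.sum_comm]
  refine Finset.sum_eq_zero fun q _ => ?_
  rw [← Finset.mul_sum, h (fun i => q i), mul_zero]

/-- **Elimination of the values.** -/
theorem elim_val {Λ : Type} [Fintype Λ] [DecidableEq Λ] (c : Λ → Ω) (V : ∀ i, Λ → C i → Ω)
    (h : ∀ f : ∀ i, C i, ∑ σ, c σ * ∏ j, V j σ (f j) = 0) (g : ∀ i, C i →₀ Ω)
    (σ0 : Λ) (h1 : ∀ i, lin (g i) (V i σ0) = 1)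
    (hkill : ∀ σ, σ ≠ σ0 → ∃ i, lin (g i) (V i σ) = 0) : c σ0 = 0 := by
  classical
  have key := extend c V (fun _ _ _ => 0) (fun f => by
    have h2 := h f
    have h3 : ∀ σ, ∑ i, ∏ j, (if j = i then (0 : Ω) else V j σ (f j)) = 0 := fun σ =>
      Finset.sum_eq_zero fun i _ => Finset.prod_eq_zero (Finset.mem_univ i) (if_pos rfl)
    simp only [h3, add_zero]
    exact h2) g
  have h3 : ∀ σ, ∑ i, ∏ j, (if j = i then lin (g j) (fun _ => (0 : Ω)) else
      lin (g j) (V j σ)) = 0 := fun σ =>
    Finset.sum_eq_zero fun i _ => Finset.prod_eq_zero (Finset.mem_univ i) (by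
      rw [if_pos rfl]
      unfold lin
      simp)
  simp only [h3, add_zero] at key
  rw [Finset.sum_eq_single σ0] at key
  · rwa [Finset.prod_eq_one fun i _ => h1 i, mul_one] at key
  · intro σ _ hσ
    obtain ⟨i, hi⟩ := hkill σ hσ
    rw [Finset.prod_eq_zero (Finset.mem_univ i) hi, mul_zero]
  · intro h
    exact absurd (Finset.mem_univ σ0) h

/-- **Elimination with derivatives.** -/
theorem elim_der {Λ : Type} [Fintype Λ] [DecidableEq Λ] (c : Λ → Ω) (V W : ∀ i, Λ → C i → Ω)
    (h : ∀ f : ∀ i, C i, ∑ σ, (c σ * ∏ j, V j σ (f j) +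
      ∑ i, ∏ j, (if j = i then W j σ (f j) else V j σ (f j))) = 0) (g : ∀ i, C i →₀ Ω)
    (σ0 : Λ) (i0 : Fin r) (h0 : lin (g i0) (V i0 σ0) = 0)
    (h1 : ∀ i, i ≠ i0 → lin (g i) (V i σ0) = 1)
    (hkill : ∀ σ, σ ≠ σ0 → (∃ i, lin (g i) (V i σ) = 0 ∧ lin (g i) (W i σ) = 0) ∨
      ∃ i j, i ≠ j ∧ lin (g i) (V i σ) = 0 ∧ lin (g j) (V j σ) = 0) :
    lin (g i0) (W i0 σ0) = 0 := by
  classical
  have key := extend c V W h g
  rw [Finset.sum_eq_single σ0] at key
  · rw [Finset.prod_eq_zero (Finset.mem_univ i0) h0, mul_zero, zero_add,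
      Finset.sum_eq_single i0] at key
    · rw [← Finset.mul_prod_erase Finset.univ _ (Finset.mem_univ i0), if_pos rfl,
        Finset.prod_eq_one, mul_one] at key
      · exact key
      · intro j hj
        have hj' := Finset.ne_of_mem_erase hj
        rw [if_neg hj']
        exact h1 j hj'
    · intro i _ hi
      refine Finset.prod_eq_zero (Finset.mem_univ i0) ?_
      rw [if_neg (Ne.symm hi)]
      exact h0
    · intro h
      exact absurd (Finset.mem_univ i0) h
  · intro σ _ hσ
    rcases hkill σ hσ with ⟨i, hi1, hi2⟩ | ⟨i, j, hij, hi, hj⟩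
    · rw [Finset.prod_eq_zero (Finset.mem_univ i) hi1, mul_zero, zero_add]
      refine Finset.sum_eq_zero fun i' _ => Finset.prod_eq_zero (Finset.mem_univ i) ?_
      split_ifs
      · exact hi2
      · exact hi1
    · rw [Finset.prod_eq_zero (Finset.mem_univ i) hi, mul_zero, zero_add]
      refine Finset.sum_eq_zero fun i' _ => ?_
      by_cases h : i = i'
      · refine Finset.prod_eq_zero (Finset.mem_univ j) ?_
        rw [if_neg fun h2 => hij (h.trans h2.symm)]
        exact hj
      · refine Finset.prod_eq_zero (Finset.mem_univ i) ?_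
        rw [if_neg h]
        exact hi
  · intro h
    exact absurd (Finset.mem_univ σ0) h

end

end H84.AB
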