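import Pool.Agent.H84.AB.Rel

/-!
Elimination under the condition of Hall.
-/

set_option autoImplicit false
set_option linter.overlappingInstances false
set_option linter.unusedSectionVars false

open FF IntermediateField
open Pool.Agent.W602.GT Pool.Agent.W603.LV Pool.Agent.W619.PQ Pool.Agent.W619.TW
  Pool.Agent.W619.Y Q36.SD

namespace H84.AB

/-- the independence condition in given coordinates -/
def JetRel (k F : Type) [Field k] [Field F] [Algebra k F] {w : ℕ}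
    (E : Fin w → Derivation k F F) (p : ℕ) : Prop :=
  ∀ (Ω : Type) [Field Ω] [Algebra k Ω] (Φ : Finset (F →ₐ[k] Ω)) (c : (F →ₐ[k] Ω) → Ω)
    (v : (F →ₐ[k] Ω) → Fin w → Ω) (S : Finset (F →ₐ[k] Ω)), S ⊆ Φ → (∀ φ ∈ Φ, φ ∉ S → v φ = 0) →
    Φ.card + S.card ≤ p + 1 →
    (∀ ω : (Fin w → Derivation k F F) → F, CanForm k F w ω →
      ∑ φ ∈ Φ, (c φ * φ (ω E) + ∑ a, v φ a * φ (E a (ω E))) = 0) →
    ∀ φ ∈ Φ, c φ = 0 ∧ v φ = 0

section

variable {k F Ω : Type} [Field k] [Field F] [Algebra k F] [Field Ω] [Algebra k Ω] {w : ℕ}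

theorem lin_ev (E : Fin w → Derivation k F F) (φ : F →ₐ[k] Ω) (g : Can k F w →₀ Ω) :
    lin g (fun ω => φ (ω.1 E)) = ev E φ g := lin_eq _ _

theorem lin_dv (E : Fin w → Derivation k F F) (φ : F →ₐ[k] Ω) (g : Can k F w →₀ Ω)
    (v : Fin w → Ω) :
    lin g (fun ω => ∑ a, v a * φ (E a (ω.1 E))) = ∑ a, v a * dv E φ a g := by
  unfold dv
  simp only [← lin_eq]
  unfold lin
  simp only [Finset.mul_sum]
  rw [Finset.sum_comm]
  refine Finset.sum_congr rfl fun a _ => Finset.sum_congr rfl fun x _ => ?_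
  ring

end

section

variable {k L M : Type} [Field k] [CharZero k] [Field L] [Field M]
  [Algebra k L] [Algebra k M] [Algebra L M] [IsScalarTower k L M] [FiniteDimensional L M]
  {r : ℕ} (F : Fin r → IntermediateField k M) {w : Fin r → ℕ}
  {E : ∀ i, Fin (w i) → Derivation k (F i) (F i)} {p : Fin r → ℕ}

/-- **Elimination of the values under Hall's condition.** -/
theorem hall_val (hJ : ∀ i, JetRel k (F i) (E i) (p i)) (B : Finset (Fin r))
    (hB : ∀ i ∈ B, 2 * Module.finrank L (IntermediateField.adjoin L (F i : Set M)) ≤ p i + 1)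
    (hQ : ∀ Q : Finset (Fin r), Disjoint Q B →
      Module.finrank (IntermediateField.adjoin L {z : M | ∃ j, j ∉ Q ∧ z ∈ F j}) M = 1 ∨
      2 * Module.finrank (IntermediateField.adjoin L {z : M | ∃ j, j ∉ Q ∧ z ∈ F j}) M ≤
        1 + ∑ j ∈ Q, p j) (hr : 0 < r)
    {Ω : Type} [Field Ω] [Algebra k Ω] [Algebra L Ω] [IsScalarTower k L Ω]
    [Fintype (M →ₐ[L] Ω)] (σ0 : M →ₐ[L] Ω) (c : (M →ₐ[L] Ω) → Ω)
    (h : ∀ f : ∀ i, Can k (F i) (w i), ∑ σ, c σ * ∏ j, rs (F j) σ ((f j).1 (E j)) = 0) :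
    c σ0 = 0 := by
  classical
  obtain ⟨K, μ, hK0, hμ, hcap, hkill⟩ := assignment F B hB hQ σ0 ⟨0, hr⟩
  have hex : ∀ i, ∃ g : Can k (F i) (w i) →₀ Ω, ev (E i) (rs (F i) σ0) g = 1 ∧
      ∀ φ ∈ K i, ev (E i) φ g = 0 := by
    intro i
    have h1 := hcap i
    obtain ⟨g, -, h2, -, h3⟩ := kill (hJ i Ω) (rs (F i) σ0) (K i) (μ i) (hμ i) (hK0 i) 1 0 0 0
      (Or.inl rfl) (Or.inr ⟨one_ne_zero, rfl⟩) (by split_ifs at h1 <;> omega)
    refine ⟨g, ?_, h2⟩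
    simpa using h3
  choose g hg1 hg2 using hex
  refine elim_val c (fun i σ (ω : Can k (F i) (w i)) => rs (F i) σ (ω.1 (E i))) h g σ0
    (fun i => (lin_ev _ _ _).trans (hg1 i)) fun σ hσ => ?_
  rcases hkill σ hσ with ⟨i, hi, -⟩ | ⟨i, -, -, hi, -⟩
  · exact ⟨i, (lin_ev _ _ _).trans (hg2 i _ hi)⟩
  · exact ⟨i, (lin_ev _ _ _).trans (hg2 i _ hi)⟩

/-- **Elimination of the derivatives under Hall's condition.** -/
theorem hall_der (hJ : ∀ i, JetRel k (F i) (E i) (p i)) (B : Finset (Fin r))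
    (hB : ∀ i ∈ B, 2 * Module.finrank L (IntermediateField.adjoin L (F i : Set M)) ≤ p i + 1)
    (hQ : ∀ Q : Finset (Fin r), Disjoint Q B →
      Module.finrank (IntermediateField.adjoin L {z : M | ∃ j, j ∉ Q ∧ z ∈ F j}) M = 1 ∨
      2 * Module.finrank (IntermediateField.adjoin L {z : M | ∃ j, j ∉ Q ∧ z ∈ F j}) M ≤
        1 + ∑ j ∈ Q, p j) (i0 : Fin r)
    {Ω : Type} [Field Ω] [Algebra k Ω] [Algebra L Ω] [IsScalarTower k L Ω]
    [Fintype (M →ₐ[L] Ω)] (σ0 : M →ₐ[L] Ω) (c : (M →ₐ[L] Ω) → Ω)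
    (v : ∀ i, (M →ₐ[L] Ω) → Fin (w i) → Ω)
    (h : ∀ f : ∀ i, Can k (F i) (w i), ∑ σ, (c σ * ∏ j, rs (F j) σ ((f j).1 (E j)) +
      ∑ i, ∏ j, (if j = i then ∑ a, v j σ a * rs (F j) σ (E j a ((f j).1 (E j)))
        else rs (F j) σ ((f j).1 (E j)))) = 0) :
    (1 ≤ p i0 → v i0 σ0 = 0) ∧
      ∀ f0 f1 : Can k (F i0) (w i0),
        rs (F i0) σ0 (f0.1 (E i0)) * ∑ a, v i0 σ0 a * rs (F i0) σ0 (E i0 a (f1.1 (E i0))) =
        rs (F i0) σ0 (f1.1 (E i0)) * ∑ a, v i0 σ0 a * rs (F i0) σ0 (E i0 a (f0.1 (E i0))) := by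
  classical
  obtain ⟨K, μ, hK0, hμ, hcap, hkill⟩ := assignment F B hB hQ σ0 i0
  have hex : ∀ i, i ≠ i0 → ∃ g : Can k (F i) (w i) →₀ Ω, ev (E i) (rs (F i) σ0) g = 1 ∧
      (∀ φ ∈ K i, ev (E i) φ g = 0) ∧ ∀ φ ∈ K i, μ i φ = 2 → ∀ a, dv (E i) φ a g = 0 := by
    intro i hi
    have h1 := hcap i
    rw [if_neg hi] at h1
    obtain ⟨g, -, h2, h3, h4⟩ := kill (hJ i Ω) (rs (F i) σ0) (K i) (μ i) (hμ i) (hK0 i) 1 0 0 0
      (Or.inl rfl) (Or.inr ⟨one_ne_zero, rfl⟩) (by omega)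
    refine ⟨g, ?_, h2, h3⟩
    simpa using h4
  -- the conclusion for every combination at `i0`
  have main : ∀ g0 : Can k (F i0) (w i0) →₀ Ω, ev (E i0) (rs (F i0) σ0) g0 = 0 →
      (∀ φ ∈ K i0, ev (E i0) φ g0 = 0) →
      (∀ φ ∈ K i0, μ i0 φ = 2 → ∀ a, dv (E i0) φ a g0 = 0) →
      ∑ a, v i0 σ0 a * dv (E i0) (rs (F i0) σ0) a g0 = 0 := by
    intro g0 h1 h2 h3
    have hex' : ∀ i, ∃ g : Can k (F i) (w i) →₀ Ω, (i ≠ i0 → ev (E i) (rs (F i) σ0) g = 1) ∧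
        (∀ φ ∈ K i, ev (E i) φ g = 0) ∧ (∀ φ ∈ K i, μ i φ = 2 → ∀ a, dv (E i) φ a g = 0) ∧
        ∀ hi : i = i0, g = hi ▸ g0 := by
      intro i
      by_cases hi : i = i0
      · subst hi
        exact ⟨g0, fun h => absurd rfl h, h2, h3, fun _ => rfl⟩
      · obtain ⟨g, h4, h5, h6⟩ := hex i hi
        exact ⟨g, fun _ => h4, h5, h6, fun h => absurd h hi⟩
    choose g hg1 hg2 hg3 hg4 using hex'
    have hg0 : g i0 = g0 := hg4 i0 rfl
    have h5 := elim_der c (fun i σ (ω : Can k (F i) (w i)) => rs (F i) σ (ω.1 (E i)))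
      (fun i σ (ω : Can k (F i) (w i)) => ∑ a, v i σ a * rs (F i) σ (E i a (ω.1 (E i)))) h g σ0 i0
      ((lin_ev _ _ _).trans (by rw [hg0]; exact h1)) (fun i hi => (lin_ev _ _ _).trans (hg1 i hi))
      (fun σ hσ => by
        rcases hkill σ hσ with ⟨i, hi, hi2⟩ | ⟨i, j, hij, hi, hj⟩
        · refine Or.inl ⟨i, (lin_ev _ _ _).trans (hg2 i _ hi), ?_⟩
          rw [lin_dv]
          refine Finset.sum_eq_zero fun a _ => ?_
          rw [hg3 i _ hi hi2 a, mul_zero]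
        · exact Or.inr ⟨i, j, hij, (lin_ev _ _ _).trans (hg2 i _ hi),
            (lin_ev _ _ _).trans (hg2 j _ hj)⟩)
    rw [lin_dv, hg0] at h5
    exact h5
  have hc0 := hcap i0
  rw [if_pos rfl] at hc0
  refine ⟨fun hp => ?_, fun f0 f1 => ?_⟩
  · by_contra hv
    obtain ⟨g, h1, h2, h3, h4⟩ := kill (hJ i0 Ω) (rs (F i0) σ0) (K i0) (μ i0) (hμ i0) (hK0 i0)
      0 1 (v i0 σ0) 1 (Or.inr le_rfl) (Or.inl hv) (by omega)
    rw [one_mul] at h1
    rw [zero_mul, zero_add, main g h1 h2 h3] at h4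
    exact zero_ne_one h4
  · by_cases hp : 1 ≤ p i0
    · have hv : v i0 σ0 = 0 := by
        by_contra hv
        obtain ⟨g, h1, h2, h3, h4⟩ := kill (hJ i0 Ω) (rs (F i0) σ0) (K i0) (μ i0) (hμ i0) (hK0 i0)
          0 1 (v i0 σ0) 1 (Or.inr le_rfl) (Or.inl hv) (by omega)
        rw [one_mul] at h1
        rw [zero_mul, zero_add, main g h1 h2 h3] at h4
        exact zero_ne_one h4
      simp [hv]
    · have hK : K i0 = ∅ := by
        by_contra hne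
        obtain ⟨x, hx⟩ := Finset.nonempty_iff_ne_empty.2 hne
        have h8 := Finset.single_le_sum (f := μ i0) (fun y _ => Nat.zero_le _) hx
        rcases hμ i0 x hx with h9 | h9 <;> omega
      have h1 := main (Finsupp.single f1 (rs (F i0) σ0 (f0.1 (E i0))) -
        Finsupp.single f0 (rs (F i0) σ0 (f1.1 (E i0)))) (by
          rw [map_sub, ev_single, ev_single]
          ring) (by rw [hK]; simp) (by rw [hK]; simp)
      simp only [map_sub, dv_single] at h1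
      rw [Finset.mul_sum, Finset.mul_sum, ← sub_eq_zero, ← Finset.sum_sub_distrib]
      rw [← h1]
      refine Finset.sum_congr rfl fun a _ => ?_
      ring

end

end H84.AB
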