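import Pool.Agent.H84.AB.Hall

/-!
The canonical image of varieties dominated by products.
-/

set_option autoImplicit false
set_option linter.overlappingInstances false
set_option linter.unusedSectionVars false

open FF IntermediateField
open Pool.Agent.W602.GT Pool.Agent.W603.LV Pool.Agent.W619.PQ Pool.Agent.W619.TW
  Pool.Agent.W619.Y Q36.SD Q36.PT

namespace H84.AB

section

variable {k F : Type} [Field k] [CharZero k] [Field F] [Algebra k F] {w : ℕ}

/-- a transcendence basis which contains `h` ratios of canonical forms -/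
theorem exists_ratio_basis (hw : Algebra.trdeg k F = w) {y : Fin w → F}
    {E : Fin w → Derivation k F F} (hy : IsTranscendenceBasis k y)
    (hE : ∀ i j, E i (y j) = if i = j then 1 else 0) {h : ℕ}
    (hI : ImageGe k F w (fun _ => False) 1 h) :
    ∃ (t : Fin w → F) (H : Finset (Fin w)), IsTranscendenceBasis k t ∧ H.card = h ∧
      ∀ l ∈ H, ∃ f0 f1 : Can k F w, f0.1 E ≠ 0 ∧ t l = f1.1 E / f0.1 E := by
  classical
  obtain ⟨ω, hω, D, hD0, hD⟩ := hI
  have hcan : ∀ l, CanForm k F w (ω l) := by
    intro l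
    refine ⟨(hω l).1, fun P hP G hG => ?_⟩
    rcases (hω l).2.1 P hP (fun h => h) G hG with h1 | ⟨s, -, -, h1⟩
    · exact Or.inl h1
    · right
      simpa using h1
  have hcoord : ∀ l, ω l D = (Matrix.of fun i j => D i (y j)).det * ω l E := by
    intro l
    have h1 := Pool.Agent.Y172.pluri_coord hy hE (hcan l).1 D
    rwa [pow_one] at h1
  have hdet : (Matrix.of fun i j => D i (y j)).det ≠ 0 := by
    intro h1
    have h2 := hD0 0
    rw [hcoord, h1, zero_mul] at h2
    exact h2 rfl
  have hE0 : ∀ l, ω l E ≠ 0 := by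
    intro l h1
    have h2 := hD0 l
    rw [hcoord, h1, mul_zero] at h2
    exact h2 rfl
  let x : Fin h → F := fun l => ω l.succ E / ω 0 E
  have hx : AlgebraicIndependent k x := by
    have h1 : (fun l : Fin h => ω l.succ D / ω 0 D) = x := by
      funext l
      simp only [x]
      rw [hcoord, hcoord, mul_div_mul_left _ _ hdet]
    rwa [← h1]
  obtain ⟨s, hs1, hs2⟩ := exists_isTranscendenceBasis_superset hx.coe_range
  have h1 := hs2.cardinalMk_eq_trdeg
  rw [hw] at h1
  have h2 : Cardinal.lift.{0} (Cardinal.mk s) = Cardinal.lift.{0} (Cardinal.mk (Fin w)) := by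
    rw [h1]
    simp
  obtain ⟨e⟩ := Cardinal.lift_mk_eq'.1 h2
  have hinj : Function.Injective x := hx.injective
  refine ⟨fun l => (e.symm l : F), Finset.univ.filter fun l => (e.symm l : F) ∈ Set.range x,
    hs2.comp_equiv e.symm, ?_, ?_⟩
  · have h3 : (Finset.univ.filter fun l => (e.symm l : F) ∈ Set.range x) =
        Finset.univ.image fun j : Fin h => e ⟨x j, hs1 ⟨j, rfl⟩⟩ := by
      ext l
      simp only [Finset.mem_filter, Finset.mem_univ, true_and, Finset.mem_image]
      constructor
      · rintro ⟨j, hj⟩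
        refine ⟨j, ?_⟩
        rw [← e.symm.injective.eq_iff, Equiv.symm_apply_apply]
        exact Subtype.ext hj
      · rintro ⟨j, rfl⟩
        exact ⟨j, by rw [Equiv.symm_apply_apply]⟩
    rw [h3, Finset.card_image_of_injective, Finset.card_univ, Fintype.card_fin]
    intro a b hab
    exact hinj (congrArg Subtype.val (e.injective hab))
  · intro l hl
    obtain ⟨j, hj⟩ := (Finset.mem_filter.1 hl).2
    exact ⟨⟨ω 0, hcan 0⟩, ⟨ω j.succ, hcan _⟩, hE0 0, hj.symm⟩

end

section

variable {k L M : Type} [Field k] [CharZero k] [Field L] [Field M]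
  [Algebra k L] [Algebra k M] [Algebra L M] [IsScalarTower k L M] [FiniteDimensional L M]
  [Algebra.EssFiniteType k L] {r n : ℕ} (F : Fin r → IntermediateField k M)
  [hF : ∀ i, Algebra.EssFiniteType k (F i)] {w : Fin r → ℕ} {p : Fin r → ℕ}

/-- **The dimension of the canonical image.** -/
theorem image (hr : 0 < r) (hnM : Algebra.trdeg k M = n)
    (halg : Algebra.IsAlgebraic ↥(⨆ i, F i) M)
    (hw : ∀ i, Algebra.trdeg k (F i) = w i) (hsum : ∑ i, w i = n)
    (hJA : ∀ i, JetAmple k (F i) (w i) (p i))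
    (B : Finset (Fin r))
    (hB : ∀ i ∈ B, 2 * Module.finrank L (IntermediateField.adjoin L (F i : Set M)) ≤ p i + 1)
    (hQ : ∀ Q : Finset (Fin r), Disjoint Q B →
      Module.finrank (IntermediateField.adjoin L {z : M | ∃ j, j ∉ Q ∧ z ∈ F j}) M = 1 ∨
      2 * Module.finrank (IntermediateField.adjoin L {z : M | ∃ j, j ∉ Q ∧ z ∈ F j}) M ≤
        1 + ∑ j ∈ Q, p j)
    (h : Fin r → ℕ) (hh : ∀ i, (1 ≤ p i ∧ h i = w i) ∨
      ImageGe k (F i) (w i) (fun _ => False) 1 (h i)) :
    ImageGe k L n (fun _ => False) 1 (∑ i, h i) := by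
  classical
  have hessM : Algebra.EssFiniteType k M := Q36.HB.ess_up k L M
  have hn : Algebra.trdeg k L = n := trdeg_below (K := M) hnM
  obtain ⟨y0, E0, hy0, hE0⟩ := Pool.Agent.Y172.exists_crd (k := k) (K := L) hn
  choose E' hE' using fun i => Pool.Agent.Y172.exists_lift (L := M) hn (E0 i)
  have hEd := Pool.Agent.Y172.lift_dual hE0 hE'
  choose y E hy hE hJ using hJA
  let e : Fin n ≃ (Σ i, Fin (w i)) := (finCongr hsum).symm.trans finSigmaFinEquiv.symm
  have hby := basis_family F halg hnM y hy e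
  -- the second basis
  have hex : ∀ i, ∃ (t : Fin (w i) → F i) (H : Finset (Fin (w i))), IsTranscendenceBasis k t ∧
      H.card = h i ∧ (1 ≤ p i ∨
      ∀ l ∈ H, ∃ f0 f1 : Can k (F i) (w i), f0.1 (E i) ≠ 0 ∧ t l = f1.1 (E i) / f0.1 (E i)) := by
    intro i
    rcases hh i with ⟨h1, h2⟩ | h1
    · exact ⟨y i, Finset.univ, hy i, by rw [Finset.card_univ, Fintype.card_fin, h2], Or.inl h1⟩
    · obtain ⟨t, H, h2, h3, h4⟩ := exists_ratio_basis (hw i) (hy i) (hE i) h1
      exact ⟨t, H, h2, h3, Or.inr h4⟩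
  choose t H ht hH htH using hex
  have hbt := basis_family F halg hnM t ht e
  let T : Matrix (Fin n) (Fin n) M := Matrix.of fun a b => E' a (y (e b).1 (e b).2 : M)
  have hT : T.det ≠ 0 := jac_ne hby hEd
  let J : M := T.det
  -- the forms
  have hform : ∀ f : ∀ i, Can k (F i) (w i), ∃ ω : (Fin n → Derivation k L L) → L,
      IsSec k L n (fun _ => False) {1} 1 0 ω ∧
      ω E0 = Algebra.trace L M (J * ∏ i, (((f i).1 (E i) : F i) : M)) := by
    intro f
    obtain ⟨ω, h1, h2, h3⟩ := Q36.HB.trace_pluri (K := L) hn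
      (wedge F y e fun i => (f i).1 (E i)) (wedge_pluri F y e _)
      (fun Q hQ => wedge_reg F hnM hw hy hE e (fun i => (f i).2.1) (fun i => (f i).2.2) Q hQ)
    refine ⟨ω, ⟨h1, fun v hv _ D hD => ?_, fun v _ hB => absurd hB id⟩, ?_⟩
    · exact Pool.Agent.W303.PG.dom_of_reg (h2 v hv D hD)
    · rw [h3 E0 E' hE']
      congr 1
      unfold wedge
      rw [mul_comm]
  choose ω hω1 hω2 using hform
  have hchar : CharZero L := charZero_of_injective_algebraMap (algebraMap k L).injective
  have hsep : Algebra.IsSeparable L M := inferInstance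
  have hΩ := AlgHom.card L M (AlgebraicClosure M)
  have hpos : 0 < Module.finrank L M := Module.finrank_pos
  obtain ⟨σ0⟩ : Nonempty (M →ₐ[L] AlgebraicClosure M) :=
    Fintype.card_pos_iff.1 (by rw [hΩ]; exact hpos)
  -- a nonzero form
  obtain ⟨f0, hG0⟩ : ∃ f : ∀ i, Can k (F i) (w i),
      Algebra.trace L M (J * ∏ i, (((f i).1 (E i) : F i) : M)) ≠ 0 := by
    by_contra hcon
    push Not at hcon
    have h1 := hall_val (Ω := AlgebraicClosure M) F hJ B hB hQ hr σ0 (fun σ => σ J) (fun f => by
      have h2 := trace_eq_sum_embeddings (K := L) (L := M)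
        (x := J * ∏ i, (((f i).1 (E i) : F i) : M)) (AlgebraicClosure M)
      rw [hcon f, map_zero] at h2
      rw [h2]
      refine Finset.sum_congr rfl fun σ _ => ?_
      rw [map_mul, map_prod]
      rfl)
    exact hT ((map_eq_zero σ0).1 h1)
  set G0 := Algebra.trace L M (J * ∏ i, (((f0 i).1 (E i) : F i) : M)) with hG0e
  let A : Set L := {x | ∃ f : ∀ i, Can k (F i) (w i),
    x = Algebra.trace L M (J * ∏ i, (((f i).1 (E i) : F i) : M)) / G0}
  let Ht : Finset (Fin n) := Finset.univ.filter fun b => (e b).2 ∈ H (e b).1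
  have hHt : Ht.card = ∑ i, h i := by
    have h1 : Ht.card = (Finset.univ.sigma H).card := by
      rw [← Finset.card_map e.toEmbedding]
      congr 1
      ext x
      simp only [Ht, Finset.mem_map_equiv, Finset.mem_filter, Finset.mem_univ, true_and,
        Finset.mem_sigma]
      exact Iff.of_eq (congrArg (fun x : (Σ i, Fin (w i)) => x.2 ∈ H x.1) (e.apply_symm_apply x))
    rw [h1, Finset.card_sigma]
    exact Finset.sum_congr rfl fun i _ => hH i
  obtain ⟨x, hxA, hx⟩ := Q36.HB.exists_indep hn A hbt Ht (by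
    intro d d' hd hA b hb
    have hrel := hall_der (Ω := AlgebraicClosure M) F hJ B hB hQ (e b).1 σ0
      (fun σ => σ (d' J - algebraMap L M (d G0 / G0) * J))
      (fun i σ c => σ (J * d' (y i c : M))) (fun f => by
        refine relation F hy hE J d d' hd (d G0 / G0) (f := fun i => (f i).1 (E i)) ?_
        have h2 := hA _ ⟨f, rfl⟩
        have h3 : d (Algebra.trace L M (J * ∏ i, (((f i).1 (E i) : F i) : M)) / G0 * G0) =
            d (Algebra.trace L M (J * ∏ i, (((f i).1 (E i) : F i) : M))) := by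
          rw [div_mul_cancel₀ _ hG0]
        rw [d.leibniz, h2, smul_zero, add_zero, smul_eq_mul] at h3
        rw [← h3]
        ring)
    have hb' := (Finset.mem_filter.1 hb).2
    change d' (t (e b).1 (e b).2 : M) = 0
    have hexp : ∀ z : F (e b).1, d' (z : M) =
        ∑ c, ((E (e b).1 c z : F (e b).1) : M) * d' (y (e b).1 c : M) := fun z =>
      Pool.Agent.W308.PG.YLOC.expand (y (e b).1) (E (e b).1) (hy _) (hE _) d' z
    rcases htH (e b).1 with h1 | h1
    · have h2 := hrel.1 h1
      rw [hexp]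
      refine Finset.sum_eq_zero fun c _ => ?_
      have h3 : σ0 (J * d' (y (e b).1 c : M)) = 0 := congrFun h2 c
      have h4 := (mul_eq_zero.1 ((map_eq_zero σ0).1 h3)).resolve_left hT
      rw [h4, mul_zero]
    · obtain ⟨g0, g1, hg0, hg⟩ := h1 _ hb'
      have h2 := hrel.2 g0 g1
      have h3 : ∀ z : F (e b).1, ∑ a, σ0 (J * d' (y (e b).1 a : M)) *
          rs (F (e b).1) σ0 (E (e b).1 a z) = σ0 (J * d' (z : M)) := by
        intro z
        rw [hexp z, Finset.mul_sum, map_sum]
        refine Finset.sum_congr rfl fun a _ => ?_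
        rw [rs_apply, ← map_mul]
        congr 1
        ring
      rw [h3, h3, rs_apply, rs_apply, ← map_mul, ← map_mul] at h2
      have h4 := σ0.toRingHom.injective h2
      have hg0' : ((g0.1 (E (e b).1) : F (e b).1) : M) ≠ 0 := fun h5 => hg0 (Subtype.ext h5)
      have h5 : ((g0.1 (E (e b).1) : F (e b).1) : M) * d' ((g1.1 (E (e b).1) : F (e b).1) : M) =
          ((g1.1 (E (e b).1) : F (e b).1) : M) * d' ((g0.1 (E (e b).1) : F (e b).1) : M) := by
        refine mul_left_cancel₀ hT ?_
        change J * _ = J * _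
        linear_combination h4
      have h6 : (t (e b).1 (e b).2 : M) * ((g0.1 (E (e b).1) : F (e b).1) : M) =
          ((g1.1 (E (e b).1) : F (e b).1) : M) := by
        rw [hg]
        push_cast
        rw [div_mul_cancel₀ _ hg0']
      have h7 := congrArg d' h6
      rw [d'.leibniz, smul_eq_mul, smul_eq_mul] at h7
      have h8 : ((g0.1 (E (e b).1) : F (e b).1) : M) * (((g0.1 (E (e b).1) : F (e b).1) : M) *
          d' (t (e b).1 (e b).2 : M)) = 0 := by
        rw [← h6] at h5
        have h9 : ((g0.1 (E (e b).1) : F (e b).1) : M) *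
            d' ((t (e b).1 (e b).2 : M) * ((g0.1 (E (e b).1) : F (e b).1) : M)) =
            ((g0.1 (E (e b).1) : F (e b).1) : M) * ((t (e b).1 (e b).2 : M) *
              d' ((g0.1 (E (e b).1) : F (e b).1) : M) +
              ((g0.1 (E (e b).1) : F (e b).1) : M) * d' (t (e b).1 (e b).2 : M)) := by
          rw [d'.leibniz, smul_eq_mul, smul_eq_mul]
        rw [h9] at h5
        linear_combination h5
      exact ((mul_eq_zero.1 h8).resolve_left hg0' |> mul_eq_zero.1).resolve_left hg0')
  choose f hxf using hxA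
  have hne : ∀ l, Algebra.trace L M (J * ∏ i, (((f l i).1 (E i) : F i) : M)) ≠ 0 := by
    intro l h0
    have h1 := hx.transcendental l
    rw [hxf l, h0, zero_div] at h1
    exact h1 isAlgebraic_zero
  rw [← hHt]
  refine ⟨Fin.cons (ω f0) fun l => ω (f l), fun l => ?_, E0, fun l => ?_, ?_⟩
  · refine Fin.cases ?_ (fun l => ?_) l
    · rw [Fin.cons_zero]
      exact hω1 f0
    · rw [Fin.cons_succ]
      exact hω1 (f l)
  · refine Fin.cases ?_ (fun l => ?_) l
    · rw [Fin.cons_zero, hω2 f0]
      exact hG0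
    · rw [Fin.cons_succ, hω2 (f l)]
      exact hne l
  · have h1 : (fun l : Fin Ht.card =>
        (Fin.cons (ω f0) (fun l => ω (f l)) : Fin (_ + 1) → (Fin n → Derivation k L L) → L)
          l.succ E0 / (Fin.cons (ω f0) (fun l => ω (f l)) :
            Fin (_ + 1) → (Fin n → Derivation k L L) → L) 0 E0) = x := by
      funext l
      rw [Fin.cons_succ, Fin.cons_zero, hω2 f0, hω2 (f l), hxf l]
    rw [h1]
    exact hx

end

end H84.AB
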