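import Pool.Agent.H84.AB.Defs
import Mathlib

/-!
Canonical forms with prescribed jets.
-/

set_option autoImplicit false
set_option linter.overlappingInstances false
set_option linter.unusedSectionVars false

open FF Pool.Agent.W602.GT

namespace H84.AB

theorem exists_killed {Ω V ι : Type} [Field Ω] [AddCommGroup V] [Module Ω V] [Finite ι]
    (L : ι → V →ₗ[Ω] Ω) (τ : V →ₗ[Ω] Ω) (h : τ ∉ Submodule.span Ω (Set.range L)) :
    ∃ g, (∀ i, L i g = 0) ∧ τ g = 1 := by
  have h1 : ¬ (⨅ i, LinearMap.ker (L i)) ≤ LinearMap.ker τ := fun h2 =>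
    h (mem_span_of_iInf_ker_le_ker h2)
  obtain ⟨g, hg1, hg2⟩ := Set.not_subset.1 h1
  have hg1' : g ∈ ⨅ i, LinearMap.ker (L i) := hg1
  rw [Submodule.mem_iInf] at hg1'
  have hg2' : τ g ≠ 0 := hg2
  refine ⟨(τ g)⁻¹ • g, fun i => ?_, ?_⟩
  · rw [map_smul, LinearMap.mem_ker.1 (hg1' i), smul_zero]
  · rw [map_smul, smul_eq_mul, inv_mul_cancel₀ hg2']

section

variable {k F Ω : Type} [Field k] [Field F] [Algebra k F] [Field Ω] [Algebra k Ω] {w : ℕ}

/-- the regular canonical forms -/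
abbrev Can (k F : Type) [Field k] [Field F] [Algebra k F] (w : ℕ) : Type :=
  {ω : (Fin w → Derivation k F F) → F // CanForm k F w ω}

/-- the value -/
noncomputable def ev (E : Fin w → Derivation k F F) (φ : F →ₐ[k] Ω) :
    (Can k F w →₀ Ω) →ₗ[Ω] Ω :=
  Finsupp.linearCombination Ω fun ω => φ (ω.1 E)

/-- the derivatives -/
noncomputable def dv (E : Fin w → Derivation k F F) (φ : F →ₐ[k] Ω) (a : Fin w) :
    (Can k F w →₀ Ω) →ₗ[Ω] Ω :=
  Finsupp.linearCombination Ω fun ω => φ (E a (ω.1 E))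

theorem ev_single (E : Fin w → Derivation k F F) (φ : F →ₐ[k] Ω) (ω : Can k F w) (x : Ω) :
    ev E φ (Finsupp.single ω x) = x * φ (ω.1 E) := by
  unfold ev
  rw [Finsupp.linearCombination_single, smul_eq_mul]

theorem dv_single (E : Fin w → Derivation k F F) (φ : F →ₐ[k] Ω) (a : Fin w) (ω : Can k F w)
    (x : Ω) : dv E φ a (Finsupp.single ω x) = x * φ (E a (ω.1 E)) := by
  unfold dv
  rw [Finsupp.linearCombination_single, smul_eq_mul]

/-- **Forms with prescribed jets.** -/
theorem kill {E : Fin w → Derivation k F F} {p : ℕ}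
    (hJ : ∀ (Φ : Finset (F →ₐ[k] Ω)) (c : (F →ₐ[k] Ω) → Ω)
      (v : (F →ₐ[k] Ω) → Fin w → Ω) (S : Finset (F →ₐ[k] Ω)), S ⊆ Φ → (∀ φ ∈ Φ, φ ∉ S → v φ = 0) →
      Φ.card + S.card ≤ p + 1 →
      (∀ ω : (Fin w → Derivation k F F) → F, CanForm k F w ω →
        ∑ φ ∈ Φ, (c φ * φ (ω E) + ∑ a, v φ a * φ (E a (ω E))) = 0) →
      ∀ φ ∈ Φ, c φ = 0 ∧ v φ = 0)
    (φ0 : F →ₐ[k] Ω) (K : Finset (F →ₐ[k] Ω)) (μ : (F →ₐ[k] Ω) → ℕ)
    (hμ : ∀ φ ∈ K, μ φ = 1 ∨ μ φ = 2) (hK : φ0 ∉ K) (α β : Ω) (v0 : Fin w → Ω)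
    (q : ℕ) (hq : v0 = 0 ∨ 1 ≤ q) (hne : v0 ≠ 0 ∨ (α ≠ 0 ∧ β = 0))
    (hcard : ∑ φ ∈ K, μ φ + 1 + q ≤ p + 1) :
    ∃ g : Can k F w →₀ Ω, β * ev E φ0 g = 0 ∧ (∀ φ ∈ K, ev E φ g = 0) ∧
      (∀ φ ∈ K, μ φ = 2 → ∀ a, dv E φ a g = 0) ∧
      α * ev E φ0 g + ∑ a, v0 a * dv E φ0 a g = 1 := by
  classical
  let L : Option ({φ // φ ∈ K} × Option (Fin w)) → (Can k F w →₀ Ω) →ₗ[Ω] Ω := fun x =>
    match x with
    | none => β • ev E φ0
    | some (φ, none) => ev E φ.1
    | some (φ, some a) => if μ φ.1 = 2 then dv E φ.1 a else 0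
  obtain ⟨g, hg1, hg2⟩ := exists_killed L (α • ev E φ0 + ∑ a, v0 a • dv E φ0 a) (by
    intro hmem
    rw [Submodule.mem_span_range_iff_exists_fun] at hmem
    obtain ⟨b, hb⟩ := hmem
    rw [Fintype.sum_option, Fintype.sum_prod_type] at hb
    let cc : (F →ₐ[k] Ω) → Ω := fun φ => if φ = φ0 then α - b none * β else
      if h : φ ∈ K then - b (some (⟨φ, h⟩, none)) else 0
    let vv : (F →ₐ[k] Ω) → Fin w → Ω := fun φ => if φ = φ0 then v0 else
      if h : φ ∈ K then (if μ φ = 2 then fun a => - b (some (⟨φ, h⟩, some a)) else 0) else 0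
    have hne' : ∀ φ ∈ K, φ ≠ φ0 := fun φ h1 h2 => hK (h2 ▸ h1)
    have h1 := hJ (insert φ0 K) cc vv
      ((insert φ0 K).filter fun φ => (φ = φ0 ∧ v0 ≠ 0) ∨ (φ ≠ φ0 ∧ μ φ = 2))
      (Finset.filter_subset _ _) (by
        intro φ hφ hφS
        by_cases h : φ = φ0
        · simp only [vv, if_pos h]
          by_contra hv
          exact hφS (Finset.mem_filter.2 ⟨hφ, Or.inl ⟨h, hv⟩⟩)
        · have hK' := (Finset.mem_insert.1 hφ).resolve_left h
          simp only [vv, if_neg h, dif_pos hK']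
          rw [if_neg fun h2 => hφS (Finset.mem_filter.2 ⟨hφ, Or.inr ⟨h, h2⟩⟩)]) (by
        rw [Finset.card_insert_of_notMem hK, Finset.filter_insert]
        have h2 : K.card + (K.filter fun φ => (φ = φ0 ∧ v0 ≠ 0) ∨ (φ ≠ φ0 ∧ μ φ = 2)).card ≤
            ∑ φ ∈ K, μ φ := by
          rw [Finset.card_eq_sum_ones, Finset.card_filter, ← Finset.sum_add_distrib]
          refine Finset.sum_le_sum fun φ hφ => ?_
          rcases hμ φ hφ with h | h
          · rw [if_neg (by
              rintro (⟨h3, -⟩ | ⟨-, h3⟩)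
              · exact hne' φ hφ h3
              · omega), h]
          · split_ifs <;> omega
        by_cases hv : v0 = 0
        · rw [if_neg (by
            rintro (⟨-, h3⟩ | ⟨h3, -⟩)
            · exact h3 hv
            · exact h3 rfl)]
          omega
        · rw [if_pos (Or.inl ⟨rfl, hv⟩)]
          have h3 := hq.resolve_left hv
          rw [Finset.card_insert_of_notMem (by
            intro h4
            exact hK (Finset.mem_filter.1 h4).1)]
          omega) (by
        intro ω hω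
        have h2 := congrArg (fun f : (Can k F w →₀ Ω) →ₗ[Ω] Ω =>
          f (Finsupp.single ⟨ω, hω⟩ 1)) hb
        simp only [L, LinearMap.add_apply, LinearMap.smul_apply, LinearMap.sum_apply,
          smul_eq_mul, ev_single, dv_single, one_mul, Fintype.sum_option] at h2
        rw [Finset.sum_insert hK]
        simp only [cc, vv, if_true]
        have h3 : ∑ φ ∈ K, ((if φ = φ0 then α - b none * β else
            if h : φ ∈ K then - b (some (⟨φ, h⟩, none)) else 0) * φ (ω E) +
            ∑ a, (if φ = φ0 then v0 else if h : φ ∈ K then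
              (if μ φ = 2 then fun a => - b (some (⟨φ, h⟩, some a)) else 0) else 0) a *
              φ (E a (ω E))) =
            - ∑ φ : {φ // φ ∈ K}, (b (some (φ, none)) * φ.1 (ω E) +
              ∑ a, b (some (φ, some a)) * (if μ φ.1 = 2 then φ.1 (E a (ω E)) else 0)) := by
          rw [← Finset.sum_coe_sort K, ← Finset.sum_neg_distrib]
          refine Finset.sum_congr rfl fun φ _ => ?_
          have h4 := hne' φ.1 φ.2
          have h5 : (φ : F →ₐ[k] Ω) ∈ K := φ.2
          simp only [if_neg h4, dif_pos h5]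
          rw [neg_add, ← Finset.sum_neg_distrib]
          congr 1
          · ring
          · refine Finset.sum_congr rfl fun a _ => ?_
            by_cases h6 : μ φ.1 = 2
            · simp only [if_pos h6]
              ring
            · simp only [if_neg h6]
              simp
        rw [h3]
        have h7 : ∀ φ : {φ // φ ∈ K}, ∀ a, (if μ φ.1 = 2 then dv E φ.1 a else 0 :
            (Can k F w →₀ Ω) →ₗ[Ω] Ω) (Finsupp.single ⟨ω, hω⟩ 1) =
            (if μ φ.1 = 2 then φ.1 (E a (ω E)) else 0) := by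
          intro φ a
          split_ifs
          · rw [dv_single, one_mul]
          · rfl
        simp only [h7] at h2
        linear_combination -h2)
    have h2 := h1 φ0 (Finset.mem_insert_self _ _)
    simp only [cc, vv, if_true] at h2
    rcases hne with h | ⟨h3, h4⟩
    · exact h h2.2
    · rw [h4, mul_zero, sub_zero] at h2
      exact h3 h2.1)
  refine ⟨g, ?_, fun φ hφ => ?_, fun φ hφ h2 a => ?_, ?_⟩
  · exact hg1 none
  · exact hg1 (some (⟨φ, hφ⟩, none))
  · have := hg1 (some (⟨φ, hφ⟩, some a))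
    simp only [L, if_pos h2] at this
    exact this
  · simp only [LinearMap.add_apply, LinearMap.smul_apply, LinearMap.sum_apply, smul_eq_mul] at hg2
    exact hg2

end

end H84.AB
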