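import Pool.Agent.H84.AB.Basis
import Pool.Agent.H84.AB.Elim

/-!
The relation given by a vector field, and the assignment.
-/

set_option autoImplicit false
set_option linter.overlappingInstances false
set_option linter.unusedSectionVars false

open FF IntermediateField
open Pool.Agent.W602.GT Pool.Agent.W603.LV Pool.Agent.W619.PQ Pool.Agent.W619.TW
  Pool.Agent.W619.Y Q36.SD

namespace H84.AB

section

variable {k L M : Type} [Field k] [Field L] [Field M]
  [Algebra k L] [Algebra k M] [Algebra L M] [IsScalarTower k L M]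

/-- the restriction of an embedding to a subfield -/
def rs (F : IntermediateField k M) {Ω : Type} [Field Ω] [Algebra k Ω] [Algebra L Ω]
    [IsScalarTower k L Ω] (σ : M →ₐ[L] Ω) : F →ₐ[k] Ω := (σ.restrictScalars k).comp F.val

theorem rs_apply (F : IntermediateField k M) {Ω : Type} [Field Ω] [Algebra k Ω] [Algebra L Ω]
    [IsScalarTower k L Ω] (σ : M →ₐ[L] Ω) (z : F) : rs F σ z = σ (z : M) := rfl

/-- the number of the restrictions to `F` -/
theorem card_rs [FiniteDimensional L M] (F : IntermediateField k M) {Ω : Type} [Field Ω]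
    [Algebra k Ω] [Algebra L Ω] [IsScalarTower k L Ω] [DecidableEq (F →ₐ[k] Ω)]
    [Fintype (M →ₐ[L] Ω)] :
    (Finset.univ.image (rs F : (M →ₐ[L] Ω) → (F →ₐ[k] Ω))).card ≤
      Module.finrank L (IntermediateField.adjoin L (F : Set M)) := by
  classical
  let L1 : IntermediateField L M := IntermediateField.adjoin L (F : Set M)
  have hmem : ∀ z : F, (z : M) ∈ L1 := fun z => IntermediateField.subset_adjoin L _ z.2
  let _ : Fintype (L1 →ₐ[L] Ω) := Fintype.ofFinite _
  let Ψ : (L1 →ₐ[L] Ω) → (F →ₐ[k] Ω) := fun τ =>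
    { toFun := fun z => τ ⟨z, hmem z⟩
      map_one' := by
        rw [← map_one τ]
        rfl
      map_mul' := fun a b => by
        rw [← map_mul]
        rfl
      map_zero' := by
        rw [← map_zero τ]
        rfl
      map_add' := fun a b => by
        rw [← map_add]
        rfl
      commutes' := fun c => by
        have h1 : (⟨((algebraMap k F c : F) : M), hmem _⟩ : L1) =
            algebraMap L L1 (algebraMap k L c) := by
          apply Subtype.ext
          change algebraMap k M c = algebraMap L M (algebraMap k L c)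
          rw [← IsScalarTower.algebraMap_apply]
        rw [h1, τ.commutes, ← IsScalarTower.algebraMap_apply] }
  have h1 : Finset.univ.image (rs F : (M →ₐ[L] Ω) → (F →ₐ[k] Ω)) ⊆
      Finset.univ.image Ψ := by
    intro φ hφ
    obtain ⟨σ, -, rfl⟩ := Finset.mem_image.1 hφ
    exact Finset.mem_image.2 ⟨σ.comp L1.val, Finset.mem_univ _, by ext z; rfl⟩
  have h2 := card_algHom_le_finrank L L1 Ω
  rw [Nat.card_eq_fintype_card] at h2
  exact ((Finset.card_le_card h1).trans Finset.card_image_le).trans h2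

/-- **The assignment of the points.** -/
theorem assignment [FiniteDimensional L M] {r : ℕ} (F : Fin r → IntermediateField k M)
    {p : Fin r → ℕ} (B : Finset (Fin r))
    (hB : ∀ i ∈ B, 2 * Module.finrank L (IntermediateField.adjoin L (F i : Set M)) ≤ p i + 1)
    (hQ : ∀ Q : Finset (Fin r), Disjoint Q B →
      Module.finrank (IntermediateField.adjoin L {z : M | ∃ j, j ∉ Q ∧ z ∈ F j}) M = 1 ∨
      2 * Module.finrank (IntermediateField.adjoin L {z : M | ∃ j, j ∉ Q ∧ z ∈ F j}) M ≤
        1 + ∑ j ∈ Q, p j)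
    {Ω : Type} [Field Ω] [Algebra k Ω] [Algebra L Ω] [IsScalarTower k L Ω]
    [Fintype (M →ₐ[L] Ω)] (σ0 : M →ₐ[L] Ω) (i0 : Fin r) :
    ∃ (K : ∀ i, Finset (F i →ₐ[k] Ω)) (μ : ∀ i, (F i →ₐ[k] Ω) → ℕ), (∀ i, rs (F i) σ0 ∉ K i) ∧
      (∀ i, ∀ x ∈ K i, μ i x = 1 ∨ μ i x = 2) ∧
      (∀ i, ∑ x ∈ K i, μ i x ≤ if i = i0 then p i - 1 else p i) ∧
      ∀ σ, σ ≠ σ0 → (∃ i, rs (F i) σ ∈ K i ∧ μ i (rs (F i) σ) = 2) ∨
        ∃ i j, i ≠ j ∧ rs (F i) σ ∈ K i ∧ rs (F j) σ ∈ K j := by
  classical
  let q : ∀ i, (M →ₐ[L] Ω) → (F i →ₐ[k] Ω) := fun i => rs (F i)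
  let cap : Fin r → ℕ := fun i => if i = i0 then p i - 1 else p i
  have hcap : ∀ Q : Finset (Fin r), ∑ j ∈ Q, p j ≤ ∑ j ∈ Q, cap j + 1 := by
    intro Q
    have h1 : ∀ j ∈ Q, p j ≤ cap j + if j = i0 then 1 else 0 := by
      intro j _
      simp only [cap]
      split_ifs <;> omega
    refine (Finset.sum_le_sum h1).trans ?_
    rw [Finset.sum_add_distrib]
    have h2 : ∑ j ∈ Q, (if j = i0 then 1 else 0) ≤ 1 := by
      rw [Finset.sum_ite_eq']
      split_ifs <;> simp
    omega
  obtain ⟨K, μ, hK0, hμ, hKcap, hKB, hkill⟩ := Q36.HB.assign q σ0 B cap (fun Q hQB => by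
    have h1 := Q36.HB.card_fix (L := L) (Ω := Ω) {z : M | ∃ j, j ∉ Q ∧ z ∈ F j}
      (insert σ0 (Finset.univ.filter fun σ => σ ≠ σ0 ∧ ∀ i, i ∉ Q → q i σ = q i σ0)) σ0 (by
        intro σ hσ z hz
        rcases Finset.mem_insert.1 hσ with rfl | hσ
        · rfl
        · obtain ⟨j, hj, hzj⟩ := hz
          exact congrArg (fun φ : F j →ₐ[k] Ω => φ ⟨z, hzj⟩) ((Finset.mem_filter.1 hσ).2.2 j hj))
    rw [Finset.card_insert_of_notMem (by simp)] at h1
    have h2 := hcap Q
    rcases hQ Q hQB with h3 | h3 <;> omega)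
  refine ⟨K, μ, hK0, hμ, fun i => ?_, hkill⟩
  by_cases hi : i ∈ B
  · obtain ⟨h1, h2⟩ := hKB i hi
    have h3 : ∑ x ∈ K i, μ i x = (K i).card * 2 := by
      rw [Finset.sum_congr rfl fun x _ => h2 x, Finset.sum_const, smul_eq_mul]
    have h4 : (K i).card + 1 = (Finset.univ.image (q i)).card := by
      rw [h1]
      exact Finset.card_erase_add_one (Finset.mem_image_of_mem _ (Finset.mem_univ σ0))
    have h5 := card_rs (L := L) (Ω := Ω) (F i)
    have h6 := hB i hi
    have h7 : (Finset.univ.image (q i)).card ≤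
      Module.finrank L (IntermediateField.adjoin L (F i : Set M)) := h5
    split_ifs <;> omega
  · exact hKcap i hi

end

section

variable {k L M : Type} [Field k] [CharZero k] [Field L] [Field M]
  [Algebra k L] [Algebra k M] [Algebra L M] [IsScalarTower k L M] [FiniteDimensional L M]
  {r : ℕ} (F : Fin r → IntermediateField k M) {w : Fin r → ℕ} {y : ∀ i, Fin (w i) → F i}
  {E : ∀ i, Fin (w i) → Derivation k (F i) (F i)}

/-- **The relation given by a derivation.** -/
theorem relation (hy : ∀ i, IsTranscendenceBasis k (y i))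
    (hE : ∀ i a b, E i a (y i b) = if a = b then 1 else 0) (J : M)
    (d : Derivation k L L) (d' : Derivation k M M)
    (hd : ∀ f, d' (algebraMap L M f) = algebraMap L M (d f)) (a : L) {f : ∀ i, F i}
    (hf : d (Algebra.trace L M (J * ∏ i, (f i : M))) =
      a * Algebra.trace L M (J * ∏ i, (f i : M)))
    {Ω : Type} [Field Ω] [IsAlgClosed Ω] [Algebra k Ω] [Algebra L Ω] [IsScalarTower k L Ω]
    [Algebra M Ω] [IsScalarTower L M Ω] :
    ∑ σ : M →ₐ[L] Ω, (σ (d' J - algebraMap L M a * J) * ∏ j, rs (F j) σ (f j) +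
      ∑ i, ∏ j, (if j = i then ∑ c, σ (J * d' (y j c : M)) * rs (F j) σ (E j c (f j))
        else rs (F j) σ (f j))) = 0 := by
  classical
  have hchar : CharZero L := charZero_of_injective_algebraMap (algebraMap k L).injective
  have hsep : Algebra.IsSeparable L M := inferInstance
  have h1 : Algebra.trace L M (d' (J * ∏ i, (f i : M)) -
      algebraMap L M a * (J * ∏ i, (f i : M))) = 0 := by
    rw [map_sub, Q36.HB.trace_der d d' hd, hf, ← Algebra.smul_def, map_smul, smul_eq_mul, sub_self]
  have hex : ∀ i, d' (f i : M) = ∑ c, ((E i c (f i) : F i) : M) * d' (y i c : M) := fun i =>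
    Pool.Agent.W308.PG.YLOC.expand (y i) (E i) (hy i) (hE i) d' (f i)
  have h2 : d' (J * ∏ i, (f i : M)) - algebraMap L M a * (J * ∏ i, (f i : M)) =
      (d' J - algebraMap L M a * J) * ∏ j, (f j : M) +
        ∑ i, ∏ j, (if j = i then ∑ c, (J * d' (y j c : M)) * ((E j c (f j) : F j) : M)
          else (f j : M)) := by
    rw [d'.leibniz, Q36.HB.der_prod', smul_eq_mul, smul_eq_mul, Finset.mul_sum]
    have h3 : ∀ i, J * ∏ j, (if j = i then d' (f j : M) else (f j : M)) =
        ∏ j, (if j = i then ∑ c, (J * d' (y j c : M)) * ((E j c (f j) : F j) : M)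
          else (f j : M)) := by
      intro i
      rw [← Finset.mul_prod_erase Finset.univ _ (Finset.mem_univ i),
        ← Finset.mul_prod_erase Finset.univ (fun j => if j = i then
          ∑ c, (J * d' (y j c : M)) * ((E j c (f j) : F j) : M) else (f j : M))
          (Finset.mem_univ i), if_pos rfl, if_pos rfl, hex i, ← mul_assoc, Finset.mul_sum]
      congr 1
      · refine Finset.sum_congr rfl fun c _ => ?_
        ring
      · refine Finset.prod_congr rfl fun j hj => ?_
        rw [if_neg (Finset.ne_of_mem_erase hj), if_neg (Finset.ne_of_mem_erase hj)]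
    rw [Finset.sum_congr rfl fun i _ => h3 i]
    ring
  rw [h2] at h1
  have h3 := trace_eq_sum_embeddings (K := L) (L := M)
    (x := (d' J - algebraMap L M a * J) * ∏ j, (f j : M) +
        ∑ i, ∏ j, (if j = i then ∑ c, (J * d' (y j c : M)) * ((E j c (f j) : F j) : M)
          else (f j : M))) Ω
  rw [h1, map_zero] at h3
  rw [h3]
  refine Finset.sum_congr rfl fun σ _ => ?_
  rw [map_add, map_mul, map_prod, map_sum]
  congr 1
  refine Finset.sum_congr rfl fun i _ => ?_
  conv_rhs => rw [map_prod]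
  refine Finset.prod_congr rfl fun j _ => ?_
  by_cases h : j = i
  · rw [if_pos h, if_pos h, map_sum]
    refine Finset.sum_congr rfl fun c _ => ?_
    rw [rs_apply, ← map_mul]
  · rw [if_neg h, if_neg h]
    rfl

end

end H84.AB
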